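import Pool.Agent.H21.HK.LOC

/-!
# MP_e94f6f_an, module CON: comparison with the plane
-/

open MeasureTheory Set Filter Topology
open scoped ContDiff

namespace Pool.Agent.H21.HK

open Pool.Agent.H96.HK

variable {F : ℝ → ℝ}

lemma cm_eq (p q : X) : cm p q = (q.1 * Real.cos q.2 - p.1 * Real.cos p.2) ^ 2 +
    (q.1 * Real.sin q.2 - p.1 * Real.sin p.2) ^ 2 := by
  unfold cm
  rw [Real.cos_sub]
  linear_combination (-(q.1) ^ 2) * Real.sin_sq_add_cos_sq q.2 -
    p.1 ^ 2 * Real.sin_sq_add_cos_sq p.2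

lemma cm_nonneg (p q : X) : 0 ≤ cm p q := by rw [cm_eq]; positivity

lemma sqrt_cm_le (hF : Prof F) {K : ℝ} (hK : FB F K) (p q : X) : √(cm p q) ≤ dd F p q := by
  set L := √(cm p q) with hL
  have hL0 : 0 ≤ L := Real.sqrt_nonneg _
  rcases hL0.eq_or_lt with hz | hpos
  · rw [← hz]; exact dd_nn p q
  have hLL : L * L = cm p q := Real.mul_self_sqrt (cm_nonneg p q)
  set a := (q.1 * Real.cos q.2 - p.1 * Real.cos p.2) / L with ha
  set b := (q.1 * Real.sin q.2 - p.1 * Real.sin p.2) / L with hb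
  have hab : a ^ 2 + b ^ 2 = 1 := by
    rw [ha, hb, div_pow, div_pow, ← add_div, ← cm_eq, ← hLL, pow_two]
    exact div_self (by positivity)
  refine le_dd fun c hc => ?_
  have hd1 : ∀ t, HasDerivAt (fun τ => (c τ).1) (deriv (fun τ => (c τ).1) t) t := fun t =>
    ((hc.c1.fst).differentiable (by simp)).differentiableAt.hasDerivAt
  have hd2 : ∀ t, HasDerivAt (fun τ => (c τ).2) (deriv (fun τ => (c τ).2) t) t := fun t =>
    ((hc.c1.snd).differentiable (by simp)).differentiableAt.hasDerivAt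
  have hc1 : Continuous (deriv (fun τ => (c τ).1)) := (hc.c1.fst).continuous_deriv le_rfl
  have hc2 : Continuous (deriv (fun τ => (c τ).2)) := (hc.c1.snd).continuous_deriv le_rfl
  have hcc := hc.c1.continuous
  let D : ℝ → ℝ := fun t => deriv (fun τ => (c τ).1) t *
      (a * Real.cos (c t).2 + b * Real.sin (c t).2) +
      (c t).1 * (a * (-Real.sin (c t).2 * deriv (fun τ => (c τ).2) t) +
        b * (Real.cos (c t).2 * deriv (fun τ => (c τ).2) t))
  have hD : ∀ t, HasDerivAt (fun t => (c t).1 * (a * Real.cos (c t).2 + b * Real.sin (c t).2))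
      (D t) t := by
    intro t
    exact (hd1 t).mul ((((hd2 t).cos).const_mul a).add (((hd2 t).sin).const_mul b))
  have hDc : Continuous D := by
    have h2 : Continuous fun t => (c t).2 := continuous_snd.comp hcc
    have h1 : Continuous fun t => (c t).1 := continuous_fst.comp hcc
    exact (hc1.mul ((continuous_const.mul (Real.continuous_cos.comp h2)).add
      (continuous_const.mul (Real.continuous_sin.comp h2)))).add (h1.mul
      ((continuous_const.mul (((Real.continuous_sin.comp h2).neg).mul hc2)).add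
        (continuous_const.mul ((Real.continuous_cos.comp h2).mul hc2))))
  have hpt : ∀ t ∈ Icc (0 : ℝ) 1, D t ≤ spd F c t := by
    intro t _
    unfold spd
    refine Real.le_sqrt_of_sq_le ?_
    set A := deriv (fun τ => (c τ).1) t
    set B := deriv (fun τ => (c τ).2) t
    have hsc := Real.sin_sq_add_cos_sq (c t).2
    set C := Real.cos (c t).2
    set S := Real.sin (c t).2
    have h1 : D t = A * (a * C + b * S) + (c t).1 * B * (b * C - a * S) := by
      show A * (a * C + b * S) + (c t).1 * (a * (-S * B) + b * (C * B)) = _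
      ring
    have h2 : (a * C + b * S) ^ 2 + (b * C - a * S) ^ 2 = 1 := by
      linear_combination (a ^ 2 + b ^ 2) * hsc + hab
    have h3 : D t ^ 2 ≤ A ^ 2 + ((c t).1 * B) ^ 2 := by
      have h4 : A ^ 2 + ((c t).1 * B) ^ 2 - D t ^ 2 =
          (A * (b * C - a * S) - (c t).1 * B * (a * C + b * S)) ^ 2 +
          (1 - ((a * C + b * S) ^ 2 + (b * C - a * S) ^ 2)) * (A ^ 2 + ((c t).1 * B) ^ 2) := by
        rw [h1]; ring
      rw [h2] at h4
      nlinarith [sq_nonneg (A * (b * C - a * S) - (c t).1 * B * (a * C + b * S))]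
    have h5 : (c t).1 ^ 2 ≤ F (c t).1 ^ 2 := by
      rw [← sq_abs (c t).1]
      exact pow_le_pow_left₀ (abs_nonneg _) (hK.le _) 2
    have h6 := mul_le_mul_of_nonneg_right h5 (sq_nonneg B)
    rw [mul_pow] at h3
    linarith
  have hint : ∫ t in (0 : ℝ)..1, D t ≤ len F c :=
    intervalIntegral.integral_mono_on zero_le_one (hDc.intervalIntegrable _ _)
      ((spd_continuous hF.continuous hc.c1).intervalIntegrable _ _) hpt
  rw [intervalIntegral.integral_eq_sub_of_hasDerivAt (fun t _ => hD t)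
    (hDc.intervalIntegrable _ _), hc.en, hc.st] at hint
  refine le_trans (le_of_eq ?_) hint
  have h8 : a * (q.1 * Real.cos q.2 - p.1 * Real.cos p.2) +
      b * (q.1 * Real.sin q.2 - p.1 * Real.sin p.2) = L := by
    rw [ha, hb]
    field_simp
    rw [← cm_eq, ← hLL]; ring
  linear_combination -h8

lemma st_hasDerivAt (t : ℝ) :
    HasDerivAt Real.smoothTransition (deriv Real.smoothTransition t) t := by
  have hs : ContDiff ℝ 1 Real.smoothTransition := Real.smoothTransition.contDiff (n := 1)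
  exact (hs.differentiable (by simp)).differentiableAt.hasDerivAt

lemma dd_le_cm (hF : Prof F) {p q : X} (hp : √2 ≤ p.1) (hq : √2 ≤ q.1)
    (hpq : |p.2 - q.2| ≤ Real.pi / 2) : dd F p q ≤ √(cm p q) := by
  set m := (p.2 + q.2) / 2 with hm
  set d := (p.2 - q.2) / 2 with hd
  have hdabs : |d| ≤ Real.pi / 4 := by
    rw [hd, abs_div, abs_of_pos (by norm_num : (0 : ℝ) < 2)]; linarith
  have hpi := Real.pi_pos
  have hcos : √2 / 2 ≤ Real.cos d := by
    rw [← Real.cos_pi_div_four, ← Real.cos_abs d]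
    exact Real.cos_le_cos_of_nonneg_of_le_pi (abs_nonneg _) (by linarith) hdabs
  have hs2 : √2 * (√2 / 2) = 1 := by
    have := Real.mul_self_sqrt (show (0 : ℝ) ≤ 2 by norm_num)
    linarith
  have hs2pos : 0 < √2 := by positivity
  have hcospos : 0 < Real.cos d := lt_of_lt_of_le (by positivity) hcos
  set u0 := p.1 * Real.cos d with hu0
  set v0 := p.1 * Real.sin d with hv0
  set u1 := q.1 * Real.cos d with hu1
  set v1 := -(q.1 * Real.sin d) with hv1
  have hu0' : 1 ≤ u0 := by
    rw [← hs2]; exact mul_le_mul hp hcos (by positivity) (hs2pos.le.trans hp)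
  have hu1' : 1 ≤ u1 := by
    rw [← hs2]; exact mul_le_mul hq hcos (by positivity) (hs2pos.le.trans hq)
  let σ : ℝ → ℝ := Real.smoothTransition
  let u : ℝ → ℝ := fun t => u0 + σ t * (u1 - u0)
  let v : ℝ → ℝ := fun t => v0 + σ t * (v1 - v0)
  have hσ : ContDiff ℝ 1 σ := Real.smoothTransition.contDiff (n := 1)
  have huge : ∀ t, 1 ≤ u t := by
    intro t
    have h1 := Real.smoothTransition.nonneg t
    have h2 := Real.smoothTransition.le_one t
    show 1 ≤ u0 + Real.smoothTransition t * (u1 - u0)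
    nlinarith
  have hucd : ContDiff ℝ 1 u := contDiff_const.add (hσ.mul contDiff_const)
  have hvcd : ContDiff ℝ 1 v := contDiff_const.add (hσ.mul contDiff_const)
  have hpos : ∀ t, 0 < u t ^ 2 + v t ^ 2 := fun t => by
    have := huge t
    positivity
  let c : ℝ → X := fun t => (√(u t ^ 2 + v t ^ 2), m + Real.arctan (v t / u t))
  have hccd : ContDiff ℝ 1 c := by
    refine ContDiff.prodMk ?_ ?_
    · exact ((hucd.pow 2).add (hvcd.pow 2)).sqrt fun t => (hpos t).ne'
    · exact contDiff_const.add (Real.contDiff_arctan.comp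
        (hvcd.div hucd fun t => (zero_lt_one.trans_le (huge t)).ne'))
  have hp0 : 0 < p.1 := hs2pos.trans_le hp
  have hq0 : 0 < q.1 := hs2pos.trans_le hq
  have hd1 : -(Real.pi / 2) < d := by have := (abs_le.mp hdabs).1; linarith
  have hd2 : d < Real.pi / 2 := by have := (abs_le.mp hdabs).2; linarith
  have hpath : IsPath c p q := by
    refine ⟨hccd, ?_, ?_⟩
    · have e1 : σ 0 = 0 := Real.smoothTransition.zero
      ext
      · show √((u0 + σ 0 * (u1 - u0)) ^ 2 + (v0 + σ 0 * (v1 - v0)) ^ 2) = p.1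
        rw [e1, zero_mul, zero_mul, add_zero, add_zero, hu0, hv0,
          show (p.1 * Real.cos d) ^ 2 + (p.1 * Real.sin d) ^ 2 =
            p.1 ^ 2 * (Real.sin d ^ 2 + Real.cos d ^ 2) by ring, Real.sin_sq_add_cos_sq, mul_one]
        exact Real.sqrt_sq hp0.le
      · show m + Real.arctan ((v0 + σ 0 * (v1 - v0)) / (u0 + σ 0 * (u1 - u0))) = p.2
        rw [e1, zero_mul, zero_mul, add_zero, add_zero, hu0, hv0, mul_div_mul_left _ _ hp0.ne',
          ← Real.tan_eq_sin_div_cos, Real.arctan_tan hd1 hd2, hm, hd]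
        ring
    · have e1 : σ 1 = 1 := Real.smoothTransition.one
      ext
      · show √((u0 + σ 1 * (u1 - u0)) ^ 2 + (v0 + σ 1 * (v1 - v0)) ^ 2) = q.1
        rw [e1, one_mul, one_mul, add_sub_cancel, add_sub_cancel, hu1, hv1,
          show (q.1 * Real.cos d) ^ 2 + (-(q.1 * Real.sin d)) ^ 2 =
            q.1 ^ 2 * (Real.sin d ^ 2 + Real.cos d ^ 2) by ring, Real.sin_sq_add_cos_sq, mul_one]
        exact Real.sqrt_sq hq0.le
      · show m + Real.arctan ((v0 + σ 1 * (v1 - v0)) / (u0 + σ 1 * (u1 - u0))) = q.2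
        rw [e1, one_mul, one_mul, add_sub_cancel, add_sub_cancel, hu1, hv1, neg_div,
          mul_div_mul_left _ _ hq0.ne', ← Real.tan_eq_sin_div_cos, Real.arctan_neg,
          Real.arctan_tan hd1 hd2, hm, hd]
        ring
  refine (dd_le hpath).trans (le_of_eq ?_)
  have hcm : (u1 - u0) ^ 2 + (v1 - v0) ^ 2 = cm p q := by
    have h1 : Real.cos (p.2 - q.2) = 2 * Real.cos d ^ 2 - 1 := by
      rw [← Real.cos_two_mul]; congr 1; rw [hd]; ring
    have h2 := Real.sin_sq_add_cos_sq d
    unfold cm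
    rw [h1, hu0, hu1, hv0, hv1]
    linear_combination (p.1 + q.1) ^ 2 * h2
  have hspd : ∀ t, spd F c t = deriv σ t * √(cm p q) := by
    intro t
    have hdσ : HasDerivAt σ (deriv σ t) t := st_hasDerivAt t
    have hu' : HasDerivAt u (deriv σ t * (u1 - u0)) t := (hdσ.mul_const _).const_add _
    have hv' : HasDerivAt v (deriv σ t * (v1 - v0)) t := (hdσ.mul_const _).const_add _
    have hut := huge t
    have hut0 : u t ≠ 0 := (zero_lt_one.trans_le hut).ne'
    have hpt := hpos t
    have hs1 : HasDerivAt (fun t => √(u t ^ 2 + v t ^ 2))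
        ((2 * u t * (deriv σ t * (u1 - u0)) + 2 * v t * (deriv σ t * (v1 - v0))) /
          (2 * √(u t ^ 2 + v t ^ 2))) t := by
      have h1 := (hu'.pow 2).add (hv'.pow 2)
      have h2 := h1.sqrt hpt.ne'
      refine h2.congr_deriv ?_
      simp
    have hs2' : HasDerivAt (fun t => m + Real.arctan (v t / u t))
        (1 / (1 + (v t / u t) ^ 2) * ((deriv σ t * (v1 - v0) * u t -
          v t * (deriv σ t * (u1 - u0))) / u t ^ 2)) t :=
      ((hv'.div hu' hut0).arctan).const_add m
    have hF1 : F (c t).1 = √(u t ^ 2 + v t ^ 2) := by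
      refine hF.eq_of_one_le ?_
      show 1 ≤ √(u t ^ 2 + v t ^ 2)
      rw [Real.one_le_sqrt]
      have : (1 : ℝ) ≤ u t ^ 2 := one_le_pow₀ hut
      have := sq_nonneg (v t)
      linarith
    unfold spd
    rw [hF1]
    show √(deriv (fun t => √(u t ^ 2 + v t ^ 2)) t ^ 2 + √(u t ^ 2 + v t ^ 2) ^ 2 *
      deriv (fun t => m + Real.arctan (v t / u t)) t ^ 2) = _
    rw [hs1.deriv, hs2'.deriv, Real.sq_sqrt hpt.le]
    have hσ0 : 0 ≤ deriv σ t := Real.smoothTransition.monotone.deriv_nonneg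
    rw [← hcm]
    have key : ((2 * u t * (deriv σ t * (u1 - u0)) + 2 * v t * (deriv σ t * (v1 - v0))) /
          (2 * √(u t ^ 2 + v t ^ 2))) ^ 2 + (u t ^ 2 + v t ^ 2) *
        (1 / (1 + (v t / u t) ^ 2) * ((deriv σ t * (v1 - v0) * u t -
          v t * (deriv σ t * (u1 - u0))) / u t ^ 2)) ^ 2 =
        deriv σ t ^ 2 * ((u1 - u0) ^ 2 + (v1 - v0) ^ 2) := by
      rw [div_pow, mul_pow 2 (√(u t ^ 2 + v t ^ 2)), Real.sq_sqrt hpt.le]
      have h1 : 1 + (v t / u t) ^ 2 = (u t ^ 2 + v t ^ 2) / u t ^ 2 := by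
        field_simp
      rw [h1]
      have h2 : u t ^ 2 + v t ^ 2 ≠ 0 := hpt.ne'
      field_simp
      ring
    rw [key, Real.sqrt_mul (sq_nonneg _), Real.sqrt_sq hσ0]
  unfold len
  simp_rw [hspd]
  rw [intervalIntegral.integral_mul_const,
    intervalIntegral.integral_eq_sub_of_hasDerivAt (f := σ) (fun t _ => st_hasDerivAt t)
    ((hσ.continuous_deriv le_rfl).intervalIntegrable _ _)]
  have e1 : σ 1 = 1 := Real.smoothTransition.one
  have e0 : σ 0 = 0 := Real.smoothTransition.zero
  rw [e1, e0]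
  ring

theorem con (hFB : T_FB) : T_CON := by
  intro F hF p q
  obtain ⟨K, hK⟩ := hFB F hF
  constructor
  · rw [← Real.sq_sqrt (cm_nonneg p q)]
    exact pow_le_pow_left₀ (Real.sqrt_nonneg _) (sqrt_cm_le hF hK p q) 2
  · intro hp hq hpq
    rw [← Real.sq_sqrt (cm_nonneg p q)]
    exact pow_le_pow_left₀ (dd_nn p q) (dd_le_cm hF hp hq hpq) 2

end Pool.Agent.H21.HK
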