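import Pool.Agent.H96.HK.Basic

/-!
# MP_e94f6f_an, module DD: `dd F` is an invariant distance
-/

open MeasureTheory Set Filter Topology
open scoped ContDiff

namespace Pool.Agent.H21.HK

open Pool.Agent.H96.HK

variable {F : ℝ → ℝ}

lemma spd_nonneg (c : ℝ → X) (t : ℝ) : 0 ≤ spd F c t := Real.sqrt_nonneg _

lemma spd_continuous (hF : Continuous F) {c : ℝ → X} (hc : ContDiff ℝ 1 c) :
    Continuous (spd F c) := by
  have h1 : Continuous (deriv (fun τ => (c τ).1)) :=
    (hc.fst).continuous_deriv le_rfl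
  have h2 : Continuous (deriv (fun τ => (c τ).2)) :=
    (hc.snd).continuous_deriv le_rfl
  have h3 : Continuous (fun t => F (c t).1) := hF.comp (continuous_fst.comp hc.continuous)
  unfold spd
  exact ((h1.pow 2).add ((h3.pow 2).mul (h2.pow 2))).sqrt

lemma spd_comp {c : ℝ → X} (hc : ContDiff ℝ 1 c) {θ : ℝ → ℝ} {t d : ℝ}
    (hθ : HasDerivAt θ d t) : spd F (fun τ => c (θ τ)) t = spd F c (θ t) * |d| := by
  have h1 : deriv (fun τ => (c (θ τ)).1) t = deriv (fun τ => (c τ).1) (θ t) * d := by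
    have := (((hc.fst).differentiable (by simp)).differentiableAt (x := θ t)).hasDerivAt.comp t hθ
    exact this.deriv
  have h2 : deriv (fun τ => (c (θ τ)).2) t = deriv (fun τ => (c τ).2) (θ t) * d := by
    have := (((hc.snd).differentiable (by simp)).differentiableAt (x := θ t)).hasDerivAt.comp t hθ
    exact this.deriv
  unfold spd
  rw [h1, h2, ← Real.sqrt_sq_eq_abs, ← Real.sqrt_mul' _ (sq_nonneg d)]
  congr 1
  ring

lemma integral_spd_comp (hF : Continuous F) {c : ℝ → X} (hc : ContDiff ℝ 1 c) {θ : ℝ → ℝ}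
    (hθ : ContDiff ℝ 1 θ) (hn : ∀ t, 0 ≤ deriv θ t) (a b : ℝ) :
    ∫ t in a..b, spd F (fun τ => c (θ τ)) t = ∫ t in θ a..θ b, spd F c t := by
  have hd : ∀ t, HasDerivAt θ (deriv θ t) t := fun t =>
    (hθ.differentiable (by simp)).differentiableAt.hasDerivAt
  rw [← intervalIntegral.integral_comp_mul_deriv (fun t _ => hd t)
    (hθ.continuous_deriv le_rfl).continuousOn (spd_continuous hF hc)]
  congr 1
  funext t
  rw [spd_comp hc (hd t), abs_of_nonneg (hn t)]
  rfl

lemma len_nonneg (c : ℝ → X) : 0 ≤ len F c :=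
  intervalIntegral.integral_nonneg zero_le_one fun t _ => spd_nonneg c t

lemma bddBelow_set (p q : X) : BddBelow {L | ∃ c, IsPath c p q ∧ L = len F c} :=
  ⟨0, by rintro L ⟨c, -, rfl⟩; exact len_nonneg c⟩

lemma dd_le {p q : X} {c : ℝ → X} (hc : IsPath c p q) : dd F p q ≤ len F c :=
  csInf_le (bddBelow_set p q) ⟨c, hc, rfl⟩

/-- the straight segment -/
noncomputable def seg (p q : X) (t : ℝ) : X := (p.1 + t * (q.1 - p.1), p.2 + t * (q.2 - p.2))

lemma seg_isPath (p q : X) : IsPath (seg p q) p q where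
  c1 := by unfold seg; fun_prop
  st := by simp [seg]
  en := by simp [seg]

lemma le_dd {p q : X} {K : ℝ} (h : ∀ c, IsPath c p q → K ≤ len F c) : K ≤ dd F p q :=
  le_csInf ⟨_, seg p q, seg_isPath p q, rfl⟩ (by rintro L ⟨c, hc, rfl⟩; exact h c hc)

lemma dd_nn (p q : X) : 0 ≤ dd F p q := le_dd fun c _ => len_nonneg c

lemma dd_len (hF : Continuous F) (c : ℝ → X) (a b : ℝ) (hab : a ≤ b) (hc : ContDiff ℝ 1 c) :
    dd F (c a) (c b) ≤ ∫ t in a..b, spd F c t := by
  have hθ : ContDiff ℝ 1 (fun t : ℝ => a + t * (b - a)) := by fun_prop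
  have hd : ∀ t : ℝ, deriv (fun t : ℝ => a + t * (b - a)) t = b - a := by
    intro t
    have := ((hasDerivAt_id t).mul_const (b - a)).const_add a
    simpa using this.deriv
  have hp : IsPath (fun t => c (a + t * (b - a))) (c a) (c b) :=
    ⟨hc.comp hθ, by simp, by simp⟩
  refine (dd_le hp).trans (le_of_eq ?_)
  unfold len
  rw [integral_spd_comp hF hc hθ (fun t => by rw [hd]; linarith)]
  simp

lemma spd_const (p : X) (t : ℝ) : spd F (fun _ => p) t = 0 := by
  unfold spd
  simp

lemma dd_self (p : X) : dd F p p = 0 := by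
  refine le_antisymm ?_ (dd_nn p p)
  have hp : IsPath (fun _ => p) p p := ⟨contDiff_const, rfl, rfl⟩
  refine (dd_le hp).trans (le_of_eq ?_)
  unfold len
  simp [spd_const]

lemma len_rev {c : ℝ → X} (hc : ContDiff ℝ 1 c) :
    len F (fun t => c (1 - t)) = len F c := by
  unfold len
  have h : ∀ t, spd F (fun τ => c (1 - τ)) t = spd F c (1 - t) := by
    intro t
    have hd : HasDerivAt (fun τ : ℝ => 1 - τ) (-1) t := by
      simpa using (hasDerivAt_id t).const_sub 1
    rw [spd_comp hc hd]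
    simp
  simp_rw [h]
  rw [intervalIntegral.integral_comp_sub_left (fun t => spd F c t) 1]
  simp

lemma dd_symm_le (p q : X) : dd F p q ≤ dd F q p := by
  refine le_dd fun c hc => ?_
  have hp : IsPath (fun t => c (1 - t)) p q :=
    ⟨hc.c1.comp (by fun_prop), by simpa using hc.en, by simpa using hc.st⟩
  refine (dd_le hp).trans (le_of_eq (len_rev hc.c1))

lemma dd_symm (p q : X) : dd F p q = dd F q p := le_antisymm (dd_symm_le p q) (dd_symm_le q p)

/-- a map preserving the speed does not increase distances -/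
lemma dd_map_le {f : X → X} (hf : ContDiff ℝ 1 f) (hs : ∀ c : ℝ → X, ContDiff ℝ 1 c →
    ∀ t, spd F (fun τ => f (c τ)) t = spd F c t) (p q : X) : dd F (f p) (f q) ≤ dd F p q := by
  refine le_dd fun c hc => ?_
  have hp : IsPath (fun t => f (c t)) (f p) (f q) :=
    ⟨hf.comp hc.c1, by rw [hc.st], by rw [hc.en]⟩
  refine (dd_le hp).trans (le_of_eq ?_)
  unfold len
  congr 1
  funext t
  exact hs c hc.c1 t

lemma spd_gk (hF : Prof F) (k : ℤ) (c : ℝ → X) (t : ℝ) :
    spd F (fun τ => gk k (c τ)) t = spd F c t := by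
  have h1 : deriv (fun τ => (gk k (c τ)).1) t = (-1) ^ k * deriv (fun τ => (c τ).1) t := by
    simp only [gk_fst]
    exact deriv_const_mul_field _
  have h2 : deriv (fun τ => (gk k (c τ)).2) t = deriv (fun τ => (c τ).2) t := by
    simp only [gk_snd]
    exact deriv_add_const _
  have h3 : F (gk k (c t)).1 = F (c t).1 := by
    have hs : (-1 : ℝ) ^ k = 1 ∨ (-1 : ℝ) ^ k = -1 := by
      have h := neg_one_zpow_sq k
      have h2 : ((-1 : ℝ) ^ k - 1) * ((-1 : ℝ) ^ k + 1) = 0 := by linear_combination h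
      rcases mul_eq_zero.mp h2 with h3 | h3
      · left; linarith
      · right; linarith
    rcases hs with hs | hs
    · simp [hs]
    · simp [hs, hF.even]
  unfold spd
  rw [h1, h2, h3, mul_pow, neg_one_zpow_sq, one_mul]

lemma dd_gk_le (hF : Prof F) (k : ℤ) (p q : X) : dd F (gk k p) (gk k q) ≤ dd F p q :=
  dd_map_le (contDiff_gk k) (fun c _ t => spd_gk hF k c t) p q

lemma dd_gk (hF : Prof F) (k : ℤ) (p q : X) : dd F (gk k p) (gk k q) = dd F p q := by
  refine le_antisymm (dd_gk_le hF k p q) ?_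
  have := dd_gk_le hF (-k) (gk k p) (gk k q)
  rwa [gk_neg_gk, gk_neg_gk] at this

lemma dd_trans_le (a : ℝ) (p q : X) :
    dd F (p.1, p.2 + a) (q.1, q.2 + a) ≤ dd F p q := by
  refine dd_map_le (f := fun p : X => (p.1, p.2 + a)) (by fun_prop) ?_ p q
  intro c hc t
  unfold spd
  have h2 : deriv (fun τ => (c τ).2 + a) t = deriv (fun τ => (c τ).2) t := deriv_add_const _
  simp only [h2]

lemma dd_trans (a : ℝ) (p q : X) : dd F (p.1, p.2 + a) (q.1, q.2 + a) = dd F p q := by
  refine le_antisymm (dd_trans_le a p q) ?_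
  have := dd_trans_le (F := F) (-a) (p.1, p.2 + a) (q.1, q.2 + a)
  simpa using this

lemma dd_refl_le (p q : X) : dd F (p.1, -p.2) (q.1, -q.2) ≤ dd F p q := by
  refine dd_map_le (f := fun p : X => (p.1, -p.2)) (by fun_prop) ?_ p q
  intro c hc t
  unfold spd
  have h2 : deriv (fun τ => -(c τ).2) t = -deriv (fun τ => (c τ).2) t := by
    rw [deriv.fun_neg]
  simp only [h2, neg_sq]

lemma dd_refl (p q : X) : dd F (p.1, -p.2) (q.1, -q.2) = dd F p q := by
  refine le_antisymm (dd_refl_le p q) ?_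
  have := dd_refl_le (F := F) (p.1, -p.2) (q.1, -q.2)
  simpa using this

/-! ### triangle inequality -/

/-- concatenation -/
noncomputable def cat (c1 c2 : ℝ → X) (q : X) (t : ℝ) : X :=
  c1 (Real.smoothTransition (2 * t)) + c2 (Real.smoothTransition (2 * t - 1)) - q

lemma spd_congr {c c' : ℝ → X} {t : ℝ} (h : c =ᶠ[𝓝 t] c') : spd F c t = spd F c' t := by
  have h1 : (fun τ => (c τ).1) =ᶠ[𝓝 t] fun τ => (c' τ).1 := h.mono fun x hx => by simp only [hx]
  have h2 : (fun τ => (c τ).2) =ᶠ[𝓝 t] fun τ => (c' τ).2 := h.mono fun x hx => by simp only [hx]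
  unfold spd
  rw [h1.deriv_eq, h2.deriv_eq, h.eq_of_nhds]

lemma st_deriv_nonneg (t : ℝ) : 0 ≤ deriv Real.smoothTransition t :=
  Real.smoothTransition.monotone.deriv_nonneg

lemma cat_isPath {p q r : X} {c1 c2 : ℝ → X} (h1 : IsPath c1 p q) (h2 : IsPath c2 q r) :
    IsPath (cat c1 c2 q) p r where
  c1 := by
    have hs : ContDiff ℝ 1 Real.smoothTransition := Real.smoothTransition.contDiff (n := 1)
    unfold cat
    exact ((h1.c1.comp (hs.comp (by fun_prop))).add (h2.c1.comp (hs.comp (by fun_prop)))).sub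
      contDiff_const
  st := by
    unfold cat
    rw [Real.smoothTransition.zero_of_nonpos (by norm_num),
      Real.smoothTransition.zero_of_nonpos (by norm_num), h1.st, h2.st]
    simp
  en := by
    unfold cat
    rw [Real.smoothTransition.one_of_one_le (by norm_num),
      Real.smoothTransition.one_of_one_le (by norm_num), h1.en, h2.en]
    abel

lemma len_cat (hF : Continuous F) {p q r : X} {c1 c2 : ℝ → X} (h1 : IsPath c1 p q)
    (h2 : IsPath c2 q r) : len F (cat c1 c2 q) = len F c1 + len F c2 := by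
  have hcat := cat_isPath h1 h2
  have hs : ContDiff ℝ 1 Real.smoothTransition := Real.smoothTransition.contDiff (n := 1)
  have hθ1 : ContDiff ℝ 1 (fun t : ℝ => Real.smoothTransition (2 * t)) := hs.comp (by fun_prop)
  have hθ2 : ContDiff ℝ 1 (fun t : ℝ => Real.smoothTransition (2 * t - 1)) :=
    hs.comp (by fun_prop)
  have hn1 : ∀ t, 0 ≤ deriv (fun t : ℝ => Real.smoothTransition (2 * t)) t := by
    intro t
    refine Monotone.deriv_nonneg fun a b hab => ?_
    exact Real.smoothTransition.monotone (by linarith)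
  have hn2 : ∀ t, 0 ≤ deriv (fun t : ℝ => Real.smoothTransition (2 * t - 1)) t := by
    intro t
    refine Monotone.deriv_nonneg fun a b hab => ?_
    exact Real.smoothTransition.monotone (by linarith)
  have hcont : Continuous (spd F (cat c1 c2 q)) := spd_continuous hF hcat.c1
  have e1 : ∫ t in (0 : ℝ)..(1 / 2), spd F (cat c1 c2 q) t = len F c1 := by
    have h3 := integral_spd_comp hF h1.c1 hθ1 hn1 0 (1 / 2)
    have h4 : ∫ t in (0 : ℝ)..(1 / 2), spd F (cat c1 c2 q) t =
        ∫ t in (0 : ℝ)..(1 / 2), spd F (fun τ => c1 (Real.smoothTransition (2 * τ))) t := by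
      rw [intervalIntegral.integral_of_le (by norm_num),
        intervalIntegral.integral_of_le (by norm_num), integral_Ioc_eq_integral_Ioo,
        integral_Ioc_eq_integral_Ioo]
      refine setIntegral_congr_fun measurableSet_Ioo fun t ht => ?_
      refine spd_congr ?_
      filter_upwards [Iio_mem_nhds ht.2] with τ hτ
      have hτ' : τ < 1 / 2 := hτ
      unfold cat
      rw [Real.smoothTransition.zero_of_nonpos (x := 2 * τ - 1) (by linarith), h2.st]
      abel
    rw [h4, h3]
    unfold len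
    simp only [mul_zero, Real.smoothTransition.zero]
    norm_num
  have e2 : ∫ t in (1 / 2 : ℝ)..1, spd F (cat c1 c2 q) t = len F c2 := by
    have h3 := integral_spd_comp hF h2.c1 hθ2 hn2 (1 / 2) 1
    have h4 : ∫ t in (1 / 2 : ℝ)..1, spd F (cat c1 c2 q) t =
        ∫ t in (1 / 2 : ℝ)..1, spd F (fun τ => c2 (Real.smoothTransition (2 * τ - 1))) t := by
      rw [intervalIntegral.integral_of_le (by norm_num),
        intervalIntegral.integral_of_le (by norm_num), integral_Ioc_eq_integral_Ioo,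
        integral_Ioc_eq_integral_Ioo]
      refine setIntegral_congr_fun measurableSet_Ioo fun t ht => ?_
      refine spd_congr ?_
      filter_upwards [Ioi_mem_nhds ht.1] with τ hτ
      have hτ' : 1 / 2 < τ := hτ
      unfold cat
      rw [Real.smoothTransition.one_of_one_le (x := 2 * τ) (by linarith), h1.en]
      abel
    rw [h4, h3]
    unfold len
    norm_num
  rw [← e1, ← e2]
  unfold len
  exact (intervalIntegral.integral_add_adjacent_intervals (hcont.intervalIntegrable _ _)
    (hcont.intervalIntegrable _ _)).symm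

lemma dd_tri (hF : Continuous F) (p q r : X) : dd F p r ≤ dd F p q + dd F q r := by
  have h1 : ∀ c2, IsPath c2 q r → dd F p r - len F c2 ≤ dd F p q := by
    intro c2 h2
    refine le_dd fun c1 h1 => ?_
    have := dd_le (F := F) (cat_isPath h1 h2)
    rw [len_cat hF h1 h2] at this
    linarith
  have h2 : dd F p r - dd F p q ≤ dd F q r := by
    refine le_dd fun c2 h2 => ?_
    have := h1 c2 h2
    linarith
  linarith

/-! ### lower and upper bounds -/

lemma dd_ge1 (hF : Continuous F) (p q : X) : |p.1 - q.1| ≤ dd F p q := by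
  refine le_dd fun c hc => ?_
  have hd : ∀ t, HasDerivAt (fun τ => (c τ).1) (deriv (fun τ => (c τ).1) t) t := fun t =>
    ((hc.c1.fst).differentiable (by simp)).differentiableAt.hasDerivAt
  have hcd : Continuous (deriv (fun τ => (c τ).1)) := (hc.c1.fst).continuous_deriv le_rfl
  have h1 : ∫ t in (0 : ℝ)..1, deriv (fun τ => (c τ).1) t = q.1 - p.1 := by
    rw [intervalIntegral.integral_eq_sub_of_hasDerivAt (fun t _ => hd t)
      (hcd.intervalIntegrable _ _), hc.en, hc.st]
  have h2 : |∫ t in (0 : ℝ)..1, deriv (fun τ => (c τ).1) t| ≤ len F c := by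
    refine (intervalIntegral.abs_integral_le_integral_abs zero_le_one).trans ?_
    refine intervalIntegral.integral_mono_on zero_le_one (hcd.abs.intervalIntegrable _ _)
      ((spd_continuous hF hc.c1).intervalIntegrable _ _) fun t _ => ?_
    unfold spd
    rw [← Real.sqrt_sq_eq_abs]
    refine Real.sqrt_le_sqrt ?_
    have : 0 ≤ F (c t).1 ^ 2 * deriv (fun τ => (c τ).2) t ^ 2 := by positivity
    linarith
  rw [h1] at h2
  rwa [abs_sub_comm]

lemma dd_ge2 (hF : Prof F) (hm : ∀ s, F 0 ≤ F s) (p q : X) :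
    F 0 * |p.2 - q.2| ≤ dd F p q := by
  refine le_dd fun c hc => ?_
  have hd : ∀ t, HasDerivAt (fun τ => (c τ).2) (deriv (fun τ => (c τ).2) t) t := fun t =>
    ((hc.c1.snd).differentiable (by simp)).differentiableAt.hasDerivAt
  have hcd : Continuous (deriv (fun τ => (c τ).2)) := (hc.c1.snd).continuous_deriv le_rfl
  have h1 : ∫ t in (0 : ℝ)..1, deriv (fun τ => (c τ).2) t = q.2 - p.2 := by
    rw [intervalIntegral.integral_eq_sub_of_hasDerivAt (fun t _ => hd t)
      (hcd.intervalIntegrable _ _), hc.en, hc.st]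
  have h2 : |∫ t in (0 : ℝ)..1, deriv (fun τ => (c τ).2) t| ≤
      ∫ t in (0 : ℝ)..1, |deriv (fun τ => (c τ).2) t| :=
    intervalIntegral.abs_integral_le_integral_abs zero_le_one
  have h3 : ∫ t in (0 : ℝ)..1, F 0 * |deriv (fun τ => (c τ).2) t| ≤ len F c := by
    refine intervalIntegral.integral_mono_on zero_le_one
      ((continuous_const.mul hcd.abs).intervalIntegrable _ _)
      ((spd_continuous hF.continuous hc.c1).intervalIntegrable _ _) fun t _ => ?_
    unfold spd
    have h4 : F 0 * |deriv (fun τ => (c τ).2) t| =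
        √(F 0 ^ 2 * deriv (fun τ => (c τ).2) t ^ 2) := by
      rw [← mul_pow, Real.sqrt_sq_eq_abs, abs_mul, abs_of_pos (hF.pos 0)]
    rw [h4]
    refine Real.sqrt_le_sqrt ?_
    have h5 : F 0 ^ 2 ≤ F (c t).1 ^ 2 := pow_le_pow_left₀ (hF.pos 0).le (hm _) 2
    have h6 := mul_le_mul_of_nonneg_right h5 (sq_nonneg (deriv (fun τ => (c τ).2) t))
    have h7 : 0 ≤ deriv (fun τ => (c τ).1) t ^ 2 := sq_nonneg _
    linarith
  rw [intervalIntegral.integral_const_mul] at h3
  rw [h1] at h2
  rw [abs_sub_comm]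
  exact (mul_le_mul_of_nonneg_left h2 (hF.pos 0).le).trans h3

lemma dd_horizontal (a b φ : ℝ) : dd F (a, φ) (b, φ) ≤ |a - b| := by
  refine (dd_le (seg_isPath (a, φ) (b, φ))).trans (le_of_eq ?_)
  unfold len
  have h : ∀ t, spd F (seg (a, φ) (b, φ)) t = |a - b| := by
    intro t
    unfold spd seg
    have h1 : deriv (fun τ : ℝ => a + τ * (b - a)) t = b - a := by
      have := ((hasDerivAt_id t).mul_const (b - a)).const_add a
      simpa using this.deriv
    have h2 : deriv (fun τ : ℝ => φ + τ * (φ - φ)) t = 0 := by simp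
    simp only [h1, h2]
    rw [show (b - a) ^ 2 + F (a + t * (b - a)) ^ 2 * 0 ^ 2 = (b - a) ^ 2 by ring,
      Real.sqrt_sq_eq_abs, abs_sub_comm]
  simp [h]

lemma dd_vertical (hF : ∀ s, 0 < F s) (a φ ψ : ℝ) : dd F (a, φ) (a, ψ) ≤ F a * |φ - ψ| := by
  refine (dd_le (seg_isPath (a, φ) (a, ψ))).trans (le_of_eq ?_)
  unfold len
  have h : ∀ t, spd F (seg (a, φ) (a, ψ)) t = F a * |φ - ψ| := by
    intro t
    unfold spd seg
    have h1 : deriv (fun τ : ℝ => φ + τ * (ψ - φ)) t = ψ - φ := by
      have := ((hasDerivAt_id t).mul_const (ψ - φ)).const_add φ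
      simpa using this.deriv
    have h2 : deriv (fun τ : ℝ => a + τ * (a - a)) t = 0 := by simp
    simp only [h1, h2]
    rw [show (0 : ℝ) ^ 2 + F (a + t * (a - a)) ^ 2 * (ψ - φ) ^ 2 = (F a * (ψ - φ)) ^ 2 by
      simp; ring, Real.sqrt_sq_eq_abs, abs_mul, abs_of_pos (hF a), abs_sub_comm]
  simp [h]

theorem dd_DD (hFB : T_FB) : T_DD := by
  intro F hF
  obtain ⟨K, hK⟩ := hFB F hF
  have hc := hF.continuous
  refine
    { nn := dd_nn
      self := dd_self
      pos := ?_
      symm := dd_symm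
      tri := dd_tri hc
      iso := fun k p q => dd_gk hF k p q
      trans := dd_trans
      refl := dd_refl
      ge1 := dd_ge1 hc
      ge2 := dd_ge2 hF hK.m0
      le1 := ?_
      le2 := ?_
      len := fun c a b hab h => dd_len hc c a b hab h }
  · intro p q hpq
    by_cases h1 : p.1 = q.1
    · have h2 : p.2 ≠ q.2 := fun h2 => hpq (Prod.ext h1 h2)
      have h3 : 0 < |p.2 - q.2| := abs_pos.mpr (sub_ne_zero.mpr h2)
      exact (mul_pos (hF.pos 0) h3).trans_le (dd_ge2 hF hK.m0 p q)
    · have h3 : 0 < |p.1 - q.1| := abs_pos.mpr (sub_ne_zero.mpr h1)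
      exact h3.trans_le (dd_ge1 hc p q)
  · intro p q
    have h1 := dd_tri hc p (p.1, q.2) q
    have h2 : dd F (p.1, q.2) q ≤ |p.1 - q.1| := dd_horizontal (F := F) p.1 q.1 q.2
    have h3 : dd F p (p.1, q.2) ≤ F p.1 * |p.2 - q.2| := dd_vertical hF.pos p.1 p.2 q.2
    have h4 := mul_le_mul_of_nonneg_right (hK.up p.1) (abs_nonneg (p.2 - q.2))
    linarith
  · intro p q
    have h1 := dd_tri hc p (0, p.2) q
    have h2 := dd_tri hc (0, p.2) (0, q.2) q
    have h3 : dd F p (0, p.2) ≤ |p.1 - 0| := dd_horizontal (F := F) p.1 0 p.2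
    have h4 : dd F (0, p.2) (0, q.2) ≤ F 0 * |p.2 - q.2| := dd_vertical hF.pos 0 p.2 q.2
    have h5 : dd F (0, q.2) q ≤ |0 - q.1| := dd_horizontal (F := F) 0 q.1 q.2
    rw [sub_zero] at h3
    rw [zero_sub, abs_neg] at h5
    linarith

end Pool.Agent.H21.HK
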