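import Pool.Agent.H96.HK.Basic

/-!
# MP_e94f6f_an, module GG1: the one-dimensional heat semigroup
-/

open MeasureTheory Set Filter Topology
open scoped ContDiff

namespace Pool.Agent.H21.HK

open Pool.Agent.H96.HK

lemma gg_pos {t : ℝ} (ht : 0 < t) (x : ℝ) : 0 < gg t x := by
  unfold gg
  have : 0 < 4 * Real.pi * t := by positivity
  positivity

lemma gg_eq (t x : ℝ) : gg t x = (√(4 * Real.pi * t))⁻¹ * Real.exp (-(1 / (4 * t)) * x ^ 2) := by
  unfold gg
  congr 2
  ring

lemma gg_continuous (t : ℝ) : Continuous (gg t) := by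
  unfold gg
  fun_prop

lemma gg_integrable {t : ℝ} (ht : 0 < t) : Integrable (gg t) := by
  have h : gg t = fun x => (√(4 * Real.pi * t))⁻¹ * Real.exp (-(1 / (4 * t)) * x ^ 2) := by
    funext x; exact gg_eq t x
  rw [h]
  exact (integrable_exp_neg_mul_sq (by positivity)).const_mul _

lemma gg_integral {t : ℝ} (ht : 0 < t) : ∫ x, gg t x = 1 := by
  have h : gg t = fun x => (√(4 * Real.pi * t))⁻¹ * Real.exp (-(1 / (4 * t)) * x ^ 2) := by
    funext x; exact gg_eq t x
  rw [h, integral_const_mul, integral_gaussian]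
  have e : Real.pi / (1 / (4 * t)) = 4 * Real.pi * t := by field_simp
  rw [e]
  exact inv_mul_cancel₀ (by positivity)

/-- completing the square -/
lemma gg_mul {t τ : ℝ} (ht : 0 < t) (hτ : 0 < τ) (s r x : ℝ) :
    gg t (s - x) * gg τ (x - r) =
      ((√(4 * Real.pi * t))⁻¹ * (√(4 * Real.pi * τ))⁻¹ *
        Real.exp (-((s - r) ^ 2 / (4 * (t + τ))))) *
      Real.exp (-((t + τ) / (4 * t * τ)) * (x - (τ * s + t * r) / (t + τ)) ^ 2) := by
  unfold gg
  have hs : 0 < t + τ := by positivity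
  have e : Real.exp (-((s - x) ^ 2 / (4 * t))) * Real.exp (-((x - r) ^ 2 / (4 * τ))) =
      Real.exp (-((s - r) ^ 2 / (4 * (t + τ)))) *
      Real.exp (-((t + τ) / (4 * t * τ)) * (x - (τ * s + t * r) / (t + τ)) ^ 2) := by
    rw [← Real.exp_add, ← Real.exp_add]
    congr 1
    field_simp
    ring
  calc _ = (√(4 * Real.pi * t))⁻¹ * (√(4 * Real.pi * τ))⁻¹ *
        (Real.exp (-((s - x) ^ 2 / (4 * t))) * Real.exp (-((x - r) ^ 2 / (4 * τ)))) := by ring
    _ = _ := by rw [e]; ring

lemma gg_semi {t τ : ℝ} (ht : 0 < t) (hτ : 0 < τ) (s r : ℝ) :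
    Integrable (fun x => gg t (s - x) * gg τ (x - r)) ∧
    ∫ x, gg t (s - x) * gg τ (x - r) = gg (t + τ) (s - r) := by
  have hs : 0 < t + τ := by positivity
  have hb : 0 < (t + τ) / (4 * t * τ) := by positivity
  have h : (fun x => gg t (s - x) * gg τ (x - r)) = fun x =>
      ((√(4 * Real.pi * t))⁻¹ * (√(4 * Real.pi * τ))⁻¹ *
        Real.exp (-((s - r) ^ 2 / (4 * (t + τ))))) *
      Real.exp (-((t + τ) / (4 * t * τ)) * (x - (τ * s + t * r) / (t + τ)) ^ 2) := by
    funext x; exact gg_mul ht hτ s r x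
  rw [h]
  constructor
  · have h1 := integrable_exp_neg_mul_sq hb
    have h2 := h1.comp_sub_right ((τ * s + t * r) / (t + τ))
    exact h2.const_mul _
  · rw [integral_const_mul]
    have h3 : ∫ x, Real.exp (-((t + τ) / (4 * t * τ)) * (x - (τ * s + t * r) / (t + τ)) ^ 2) =
        √(Real.pi / ((t + τ) / (4 * t * τ))) := by
      rw [integral_sub_right_eq_self
        (fun x => Real.exp (-((t + τ) / (4 * t * τ)) * x ^ 2)) ((τ * s + t * r) / (t + τ))]
      exact integral_gaussian _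
    rw [h3]
    unfold gg
    have h4 : √(4 * Real.pi * t) * √(4 * Real.pi * τ) =
        √(4 * Real.pi * (t + τ)) * √(Real.pi / ((t + τ) / (4 * t * τ))) := by
      rw [← Real.sqrt_mul (by positivity), ← Real.sqrt_mul (by positivity)]
      congr 1
      field_simp
    have h5 : 0 < √(4 * Real.pi * t) := by positivity
    have h6 : 0 < √(4 * Real.pi * τ) := by positivity
    have h7 : 0 < √(4 * Real.pi * (t + τ)) := by positivity
    have h8 : (√(4 * Real.pi * t))⁻¹ * (√(4 * Real.pi * τ))⁻¹ *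
        √(Real.pi / ((t + τ) / (4 * t * τ))) = (√(4 * Real.pi * (t + τ)))⁻¹ := by
      rw [← mul_inv, h4]
      have h9 : 0 < √(Real.pi / ((t + τ) / (4 * t * τ))) := by positivity
      field_simp
    calc _ = (√(4 * Real.pi * t))⁻¹ * (√(4 * Real.pi * τ))⁻¹ *
        √(Real.pi / ((t + τ) / (4 * t * τ))) * Real.exp (-((s - r) ^ 2 / (4 * (t + τ)))) := by ring
      _ = _ := by rw [h8]

lemma gg_shift_integrable {t : ℝ} (ht : 0 < t) (s : ℝ) : Integrable (fun r => gg t (s - r)) :=
  (gg_integrable ht).comp_sub_left s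

lemma gg_shift_integral {t : ℝ} (ht : 0 < t) (s : ℝ) : ∫ r, gg t (s - r) = 1 := by
  rw [integral_sub_left_eq_self (gg t) volume s]
  exact gg_integral ht

lemma GG_integrable {t : ℝ} (ht : 0 < t) {g : ℝ → ℝ} {M : ℝ} (hg : Measurable g)
    (hM : ∀ x, |g x| ≤ M) (s : ℝ) : Integrable (fun r => gg t (s - r) * g r) := by
  refine ((gg_shift_integrable ht s).mul_const M).mono' ?_ ?_
  · exact (((gg_continuous t).comp (continuous_const.sub continuous_id)).measurable.mul
      hg).aestronglyMeasurable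
  · refine Eventually.of_forall fun r => ?_
    rw [Real.norm_eq_abs, abs_mul, abs_of_pos (gg_pos ht _)]
    exact mul_le_mul_of_nonneg_left (hM r) (gg_pos ht _).le

lemma GG_bdd {t : ℝ} (ht : 0 < t) (g : ℝ → ℝ) (M : ℝ)
    (hM : ∀ x, |g x| ≤ M) (s : ℝ) : |GG t g s| ≤ M := by
  unfold GG
  rw [← Real.norm_eq_abs]
  refine (norm_integral_le_of_norm_le ((gg_shift_integrable ht s).mul_const M)
    (Eventually.of_forall fun r => ?_)).trans ?_
  · rw [Real.norm_eq_abs, abs_mul, abs_of_pos (gg_pos ht _)]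
    exact mul_le_mul_of_nonneg_left (hM r) (gg_pos ht _).le
  · rw [integral_mul_const, gg_shift_integral ht, one_mul]

lemma gg_scale {t : ℝ} (ht : 0 < t) (ξ : ℝ) : gg t (√t * ξ) = (√t)⁻¹ * gg 1 ξ := by
  unfold gg
  have e : √(4 * Real.pi * t) = √(4 * Real.pi * 1) * √t := by
    rw [← Real.sqrt_mul (by positivity), mul_one]
  have e2 : (√t * ξ) ^ 2 / (4 * t) = ξ ^ 2 / (4 * 1) := by
    rw [mul_pow, Real.sq_sqrt ht.le]
    field_simp
  rw [e, e2, mul_inv]
  ring

/-- the heat semigroup in scaled form -/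
lemma GG_scaled {t : ℝ} (ht : 0 < t) (g : ℝ → ℝ) (s : ℝ) :
    GG t g s = ∫ ξ, gg 1 ξ * g (s - √t * ξ) := by
  unfold GG
  have h1 : ∫ r, gg t (s - r) * g r = ∫ y, gg t y * g (s - y) := by
    rw [← integral_sub_left_eq_self (fun y => gg t y * g (s - y)) volume s]
    congr 1
    funext r
    simp
  have hst : 0 < √t := Real.sqrt_pos.mpr ht
  have h2 := Measure.integral_comp_mul_left (fun y => gg t y * g (s - y)) (√t)
  rw [h1]
  have h3 : (fun ξ => gg t (√t * ξ) * g (s - √t * ξ)) =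
      fun ξ => (√t)⁻¹ * (gg 1 ξ * g (s - √t * ξ)) := by
    funext ξ
    rw [gg_scale ht]; ring
  rw [h3, integral_const_mul, smul_eq_mul, abs_of_pos (inv_pos.mpr hst)] at h2
  exact (mul_left_cancel₀ (inv_pos.mpr hst).ne' h2).symm

lemma scaled_continuous {g : ℝ → ℝ} {M : ℝ} (hg : Continuous g) (hM : ∀ x, |g x| ≤ M) :
    Continuous (fun z : ℝ × ℝ => ∫ ξ, gg 1 ξ * g (z.2 - √z.1 * ξ)) := by
  refine continuous_of_dominated (bound := fun ξ => gg 1 ξ * M) ?_ ?_ ?_ ?_
  · intro z
    have : Continuous (fun ξ => gg 1 ξ * g (z.2 - √z.1 * ξ)) :=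
      (gg_continuous 1).mul (hg.comp (by fun_prop))
    exact this.aestronglyMeasurable
  · intro z
    refine Eventually.of_forall fun ξ => ?_
    rw [Real.norm_eq_abs, abs_mul, abs_of_pos (gg_pos one_pos _)]
    exact mul_le_mul_of_nonneg_left (hM _) (gg_pos one_pos _).le
  · exact (gg_integrable one_pos).mul_const M
  · refine Eventually.of_forall fun ξ => ?_
    have h1 : Continuous (fun z : ℝ × ℝ => z.2 - √z.1 * ξ) := by fun_prop
    exact continuous_const.mul (hg.comp h1)

lemma GG_init (g : ℝ → ℝ) (M : ℝ) (hg : Continuous g) (hM : ∀ x, |g x| ≤ M) :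
    ContinuousOn (fun z : ℝ × ℝ => if z.1 = 0 then g z.2 else GG z.1 g z.2)
      (Ici 0 ×ˢ univ) := by
  refine (scaled_continuous hg hM).continuousOn.congr ?_
  rintro ⟨t, s⟩ hz
  have ht : 0 ≤ t := by simpa using hz
  show (if t = 0 then g s else GG t g s) = ∫ ξ, gg 1 ξ * g (s - √t * ξ)
  split_ifs with h0
  · rw [h0]
    simp only [Real.sqrt_zero, zero_mul, sub_zero]
    rw [integral_mul_const, gg_integral one_pos, one_mul]
  · exact GG_scaled (lt_of_le_of_ne ht (Ne.symm h0)) g s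

lemma gg_prod_integrable {t τ : ℝ} (ht : 0 < t) (hτ : 0 < τ) (s : ℝ) :
    Integrable (fun z : ℝ × ℝ => gg t (s - z.1) * gg τ (z.1 - z.2)) (volume.prod volume) := by
  have hc : Continuous (fun z : ℝ × ℝ => gg t (s - z.1) * gg τ (z.1 - z.2)) :=
    ((gg_continuous t).comp (by fun_prop)).mul ((gg_continuous τ).comp (by fun_prop))
  refine (integrable_prod_iff hc.aestronglyMeasurable).mpr ⟨?_, ?_⟩
  · refine Eventually.of_forall fun x => ?_
    exact (gg_shift_integrable hτ x).const_mul (gg t (s - x))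
  · have h : (fun x => ∫ y, ‖gg t (s - x) * gg τ (x - y)‖) = fun x => gg t (s - x) := by
      funext x
      have h1 : (fun y => ‖gg t (s - x) * gg τ (x - y)‖) = fun y => gg t (s - x) * gg τ (x - y) := by
        funext y
        exact Real.norm_of_nonneg (mul_pos (gg_pos ht _) (gg_pos hτ _)).le
      rw [h1, integral_const_mul, gg_shift_integral hτ, mul_one]
    rw [h]
    exact gg_shift_integrable ht s

lemma GG_comp {t τ : ℝ} (ht : 0 < t) (hτ : 0 < τ) (g : ℝ → ℝ) (M : ℝ) (hg : Measurable g)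
    (hM : ∀ x, |g x| ≤ M) (s : ℝ) : GG t (GG τ g) s = GG (t + τ) g s := by
  have hI : Integrable (fun z : ℝ × ℝ => gg t (s - z.1) * (gg τ (z.1 - z.2) * g z.2))
      (volume.prod volume) := by
    refine ((gg_prod_integrable ht hτ s).mul_const M).mono' ?_ ?_
    · have h1 : Measurable (fun z : ℝ × ℝ => gg t (s - z.1)) :=
        ((gg_continuous t).comp (by fun_prop)).measurable
      have h2 : Measurable (fun z : ℝ × ℝ => gg τ (z.1 - z.2)) :=
        ((gg_continuous τ).comp (by fun_prop)).measurable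
      exact (h1.mul (h2.mul (hg.comp measurable_snd))).aestronglyMeasurable
    · refine Eventually.of_forall fun z => ?_
      rw [Real.norm_eq_abs, abs_mul, abs_mul, abs_of_pos (gg_pos ht _), abs_of_pos (gg_pos hτ _),
        ← mul_assoc]
      exact mul_le_mul_of_nonneg_left (hM _) (mul_pos (gg_pos ht _) (gg_pos hτ _)).le
  have h1 : GG t (GG τ g) s = ∫ x, ∫ r, gg t (s - x) * (gg τ (x - r) * g r) := by
    unfold GG
    congr 1
    funext x
    rw [integral_const_mul]
  rw [h1, integral_integral_swap (f := fun x r => gg t (s - x) * (gg τ (x - r) * g r)) hI]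
  unfold GG
  congr 1
  funext r
  have h2 : (fun x => gg t (s - x) * (gg τ (x - r) * g r)) =
      fun x => gg t (s - x) * gg τ (x - r) * g r := by
    funext x; ring
  rw [h2, integral_mul_const, (gg_semi ht hτ s r).2]

lemma gg_tail {t : ℝ} (ht : 0 < t) (D : ℝ) (hD : 0 ≤ D) :
    ∫ x in {x | D ≤ |x|}, gg t x ≤ 2 * Real.exp (-(D ^ 2 / (8 * t))) := by
  have hms : MeasurableSet {x : ℝ | D ≤ |x|} := (isClosed_le continuous_const
    continuous_abs).measurableSet
  have h2t : 0 < 2 * t := by positivity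
  have h1 : ∫ x in {x | D ≤ |x|}, gg t x ≤
      ∫ x in {x | D ≤ |x|}, √2 * Real.exp (-(D ^ 2 / (8 * t))) * gg (2 * t) x := by
    refine setIntegral_mono_on (gg_integrable ht).integrableOn
      ((gg_integrable h2t).const_mul _).integrableOn hms ?_
    intro x hx
    have hx' : D ≤ |x| := hx
    have hsq : D ^ 2 ≤ x ^ 2 := by
      rw [← sq_abs x]
      exact pow_le_pow_left₀ hD hx' 2
    unfold gg
    have e1 : √(4 * Real.pi * (2 * t)) = √2 * √(4 * Real.pi * t) := by
      rw [← Real.sqrt_mul (by positivity)]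
      congr 1; ring
    have h2 : 0 < √2 := by positivity
    have h3 : 0 < √(4 * Real.pi * t) := by positivity
    have e2 : √2 * Real.exp (-(D ^ 2 / (8 * t))) *
        ((√(4 * Real.pi * (2 * t)))⁻¹ * Real.exp (-(x ^ 2 / (4 * (2 * t))))) =
        (√(4 * Real.pi * t))⁻¹ * Real.exp (-(D ^ 2 / (8 * t)) + -(x ^ 2 / (4 * (2 * t)))) := by
      rw [e1, Real.exp_add]
      field_simp
    rw [e2]
    refine mul_le_mul_of_nonneg_left (Real.exp_le_exp.mpr ?_) (inv_nonneg.mpr h3.le)
    have h4 : x ^ 2 / (4 * t) = x ^ 2 / (8 * t) + x ^ 2 / (4 * (2 * t)) := by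
      field_simp; ring
    have h5 : D ^ 2 / (8 * t) ≤ x ^ 2 / (8 * t) :=
      div_le_div_of_nonneg_right hsq (by positivity)
    linarith
  refine h1.trans ?_
  have h2 : ∫ x in {x | D ≤ |x|}, √2 * Real.exp (-(D ^ 2 / (8 * t))) * gg (2 * t) x ≤
      ∫ x, √2 * Real.exp (-(D ^ 2 / (8 * t))) * gg (2 * t) x := by
    refine setIntegral_le_integral ((gg_integrable h2t).const_mul _)
      (Eventually.of_forall fun x => ?_)
    have := gg_pos h2t x
    show (0 : ℝ) ≤ √2 * Real.exp (-(D ^ 2 / (8 * t))) * gg (2 * t) x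
    positivity
  refine h2.trans ?_
  rw [integral_const_mul, gg_integral h2t, mul_one]
  refine mul_le_mul_of_nonneg_right ?_ (Real.exp_pos _).le
  rw [Real.sqrt_le_left (by norm_num)]
  norm_num

theorem gg1 : T_GG1 where
  pos := fun _ ht x => gg_pos ht x
  int := fun _ ht => ⟨gg_integrable ht, gg_integral ht⟩
  semi := fun _ ht _ hτ s r => gg_semi ht hτ s r
  bdd := fun _ ht g M _ hM s => GG_bdd ht g M hM s
  init := GG_init
  comp := fun _ ht _ hτ g M hg hM s => GG_comp ht hτ g M hg hM s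
  tail := fun _ ht D hD => gg_tail ht D hD

end Pool.Agent.H21.HK
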