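import Pool.Agent.H96.HK.Basic

/-!
# MP_e94f6f_an, module JET: jets of classical functions, calculus of jets
-/

open MeasureTheory Set Filter Topology
open scoped ContDiff

namespace Pool.Agent.H21.HK

open Pool.Agent.H96.HK

/-- second order Taylor expansion with Peano remainder -/
lemma peano {f : ℝ → ℝ} {x : ℝ} (hf : ContDiffAt ℝ 2 f x) {ε : ℝ} (hε : 0 < ε) :
    ∀ᶠ h in 𝓝 (0 : ℝ),
      |f (x + h) - f x - deriv f x * h - deriv (deriv f) x * h ^ 2 / 2| ≤ ε * h ^ 2 := by
  -- `f` is differentiable near `x` and `deriv f` is differentiable at `x`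
  have h1 : ∀ᶠ y in 𝓝 x, DifferentiableAt ℝ f y := by
    filter_upwards [hf.eventually (by simp)] with y hy
    exact hy.differentiableAt (by simp)
  have h2 : DifferentiableAt ℝ (deriv f) x := by
    have h3 : ContDiffAt ℝ 1 (fderiv ℝ f) x := hf.fderiv_right (m := 1) (by norm_num)
    have h4 : DifferentiableAt ℝ (fderiv ℝ f) x := h3.differentiableAt (by simp)
    have h5 : deriv f = fun y => fderiv ℝ f y 1 := by
      funext y; exact (fderiv_apply_one_eq_deriv).symm
    rw [h5]
    exact h4.clm_apply (differentiableAt_const _)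
  have h3 := (hasDerivAt_iff_isLittleO_nhds_zero.mp h2.hasDerivAt).def hε
  have h1' : ∀ᶠ h in 𝓝 (0 : ℝ), DifferentiableAt ℝ f (x + h) := by
    have : Tendsto (fun h : ℝ => x + h) (𝓝 0) (𝓝 x) := by
      have h6 : Tendsto (fun h : ℝ => x + h) (𝓝 0) (𝓝 (x + 0)) :=
        (continuous_const.add continuous_id).tendsto 0
      simpa using h6
    exact this.eventually h1
  obtain ⟨δ, hδ, hball⟩ := Metric.eventually_nhds_iff_ball.mp (h3.and h1')
  refine Metric.eventually_nhds_iff_ball.mpr ⟨δ, hδ, fun h hh => ?_⟩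
  have hh' : |h| < δ := by simpa [Real.dist_eq] using hh
  -- mean value inequality
  let φ : ℝ → ℝ := fun k => f (x + k) - f x - deriv f x * k - deriv (deriv f) x * k ^ 2 / 2
  have hsub : ∀ k ∈ uIcc 0 h, |k| ≤ |h| := by
    intro k hk
    rw [mem_uIcc] at hk
    rcases hk with ⟨a, b⟩ | ⟨a, b⟩
    · rw [abs_of_nonneg a, abs_of_nonneg (a.trans b)]; exact b
    · rw [abs_of_nonpos b, abs_of_nonpos (a.trans b)]; linarith
  have hder : ∀ k ∈ uIcc 0 h, HasDerivWithinAt φ
      (deriv f (x + k) - deriv f x - deriv (deriv f) x * k) (uIcc 0 h) k := by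
    intro k hk
    have hk' : k ∈ Metric.ball (0 : ℝ) δ := by
      simpa [Real.dist_eq] using (hsub k hk).trans_lt hh'
    have hd : DifferentiableAt ℝ f (x + k) := (hball k hk').2
    have e1 : HasDerivAt (fun k => f (x + k)) (deriv f (x + k)) k := by
      have := hd.hasDerivAt.comp_const_add x k
      simpa using this
    have e2 : HasDerivAt (fun k : ℝ => deriv f x * k) (deriv f x) k := by
      simpa using (hasDerivAt_id k).const_mul (deriv f x)
    have e3 : HasDerivAt (fun k : ℝ => deriv (deriv f) x * k ^ 2 / 2) (deriv (deriv f) x * k) k := by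
      have := ((hasDerivAt_pow 2 k).const_mul (deriv (deriv f) x)).div_const 2
      refine this.congr_deriv ?_
      norm_num; ring
    exact (((e1.sub_const (f x)).sub e2).sub e3).hasDerivWithinAt
  have hbd : ∀ k ∈ uIcc 0 h, ‖deriv f (x + k) - deriv f x - deriv (deriv f) x * k‖ ≤ ε * |h| := by
    intro k hk
    have hk' : k ∈ Metric.ball (0 : ℝ) δ := by
      simpa [Real.dist_eq] using (hsub k hk).trans_lt hh'
    have := (hball k hk').1
    have e : deriv f (x + k) - deriv f x - deriv (deriv f) x * k =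
        deriv f (x + k) - deriv f x - k • deriv (deriv f) x := by
      rw [smul_eq_mul, mul_comm k]
    rw [e]
    refine this.trans ?_
    rw [Real.norm_eq_abs]
    exact mul_le_mul_of_nonneg_left (hsub k hk) hε.le
  have := Convex.norm_image_sub_le_of_norm_hasDerivWithin_le hder hbd (convex_uIcc 0 h)
    left_mem_uIcc right_mem_uIcc
  have e0 : φ 0 = 0 := by simp [φ]
  rw [e0, sub_zero, sub_zero, Real.norm_eq_abs, Real.norm_eq_abs] at this
  calc _ = |φ h| := rfl
    _ ≤ ε * |h| * |h| := this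
    _ = ε * h ^ 2 := by rw [mul_assoc, abs_mul_abs_self]; ring

lemma peano_low {f : ℝ → ℝ} {x : ℝ} (hf : ContDiffAt ℝ 2 f x) {ε : ℝ} (hε : 0 < ε) :
    ∀ᶠ h in 𝓝 (0 : ℝ),
      f x + deriv f x * h + deriv (deriv f) x * h ^ 2 / 2 - ε * h ^ 2 ≤ f (x + h) := by
  filter_upwards [peano hf hε] with h hh
  have := (abs_le.mp hh).1
  linarith

lemma cls (F : ℝ → ℝ) (u : ℝ → X → ℝ) (t : ℝ) (p : X) (D : ℝ) (hc : ContDiffAt ℝ 2 (u t) p)
    (hD : HasDerivAt (fun τ => u τ p) D t) (hle : D ≤ LB F (u t) p) : SubJet F u t p := by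
  refine ⟨D, ds (u t) p, ds (ds (u t)) p, dp (u t) p, dp (dp (u t)) p, ?_, ?_, ?_, ?_⟩
  · intro ε hε
    have h1 := (hasDerivAt_iff_isLittleO_nhds_zero.mp hD).def hε
    have h2 : Tendsto (fun h : ℝ => -h) (𝓝[>] 0) (𝓝 0) := by
      have : Tendsto (fun h : ℝ => -h) (𝓝 0) (𝓝 (-0)) := continuous_neg.tendsto 0
      rw [neg_zero] at this
      exact this.mono_left nhdsWithin_le_nhds
    filter_upwards [h2.eventually h1, self_mem_nhdsWithin] with h h3 h4
    have h5 : (0 : ℝ) < h := h4
    simp only [Real.norm_eq_abs, smul_eq_mul] at h3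
    rw [abs_neg, abs_of_pos h5] at h3
    have h6 := (abs_le.mp h3).1
    have h7 : t + -h = t - h := by ring
    rw [h7] at h6
    linarith
  · intro ε hε
    have hf : ContDiffAt ℝ 2 (fun a => u t (a, p.2)) p.1 := by
      have h1 : ContDiffAt ℝ 2 (fun a : ℝ => ((a, p.2) : X)) p.1 :=
        contDiffAt_id.prodMk contDiffAt_const
      exact ContDiffAt.comp p.1 (f := fun a : ℝ => ((a, p.2) : X)) (g := u t) (by simpa using hc) h1
    exact peano_low hf hε
  · intro ε hε
    have hf : ContDiffAt ℝ 2 (fun b => u t (p.1, b)) p.2 := by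
      have h1 : ContDiffAt ℝ 2 (fun b : ℝ => ((p.1, b) : X)) p.2 :=
        contDiffAt_const.prodMk contDiffAt_id
      exact ContDiffAt.comp p.2 (f := fun b : ℝ => ((p.1, b) : X)) (g := u t) (by simpa using hc) h1
    exact peano_low hf hε
  · simpa [LB] using hle

lemma ds_neg (f : X → ℝ) : ds (fun p => -f p) = fun p => -ds f p := by
  funext p
  simp [ds, deriv.fun_neg]

lemma dp_neg (f : X → ℝ) : dp (fun p => -f p) = fun p => -dp f p := by
  funext p
  simp [dp, deriv.fun_neg]

lemma LB_neg (F : ℝ → ℝ) (f : X → ℝ) (p : X) : LB F (fun p => -f p) p = -LB F f p := by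
  unfold LB
  rw [ds_neg, ds_neg, dp_neg, dp_neg]
  ring

lemma cls' (F : ℝ → ℝ) (u : ℝ → X → ℝ) (t : ℝ) (p : X) (D : ℝ) (hc : ContDiffAt ℝ 2 (u t) p)
    (hD : HasDerivAt (fun τ => u τ p) D t) (hle : LB F (u t) p ≤ D) : SupJet F u t p := by
  refine cls F (fun t p => -u t p) t p (-D) hc.neg hD.neg ?_
  rw [LB_neg]
  linarith

lemma add (F : ℝ → ℝ) (v w : ℝ → X → ℝ) (t : ℝ) (p : X) (hv : SubJet F v t p)
    (hw : SubJet F w t p) : SubJet F (fun t p => v t p + w t p) t p := by
  obtain ⟨T1, S1, S2, P1, P2, a1, a2, a3, a4⟩ := hv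
  obtain ⟨T1', S1', S2', P1', P2', b1, b2, b3, b4⟩ := hw
  refine ⟨T1 + T1', S1 + S1', S2 + S2', P1 + P1', P2 + P2', ?_, ?_, ?_, ?_⟩
  · intro ε hε
    filter_upwards [a1 (ε / 2) (half_pos hε), b1 (ε / 2) (half_pos hε)] with h h1 h2
    linarith
  · intro ε hε
    filter_upwards [a2 (ε / 2) (half_pos hε), b2 (ε / 2) (half_pos hε)] with h h1 h2
    linarith
  · intro ε hε
    filter_upwards [a3 (ε / 2) (half_pos hε), b3 (ε / 2) (half_pos hε)] with h h1 h2
    linarith
  · have e : (P2 + P2') / F p.1 ^ 2 = P2 / F p.1 ^ 2 + P2' / F p.1 ^ 2 := add_div _ _ _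
    rw [e]
    linarith

lemma cst (F : ℝ → ℝ) (a t : ℝ) (p : X) : SubJet F (fun _ _ => a) t p := by
  refine ⟨0, 0, 0, 0, 0, ?_, ?_, ?_, by simp⟩
  · intro ε hε
    filter_upwards [self_mem_nhdsWithin] with h h4
    have h5 : (0 : ℝ) < h := h4
    have := mul_pos hε h5
    linarith
  · intro ε hε
    filter_upwards with h
    have := mul_nonneg hε.le (sq_nonneg h)
    linarith
  · intro ε hε
    filter_upwards with h
    have := mul_nonneg hε.le (sq_nonneg h)
    linarith

lemma smul (F : ℝ → ℝ) (v : ℝ → X → ℝ) (a t : ℝ) (p : X) (ha : 0 ≤ a) (hv : SubJet F v t p) :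
    SubJet F (fun t p => a * v t p) t p := by
  rcases ha.eq_or_lt with rfl | ha
  · have := cst F 0 t p
    simpa using this
  obtain ⟨T1, S1, S2, P1, P2, a1, a2, a3, a4⟩ := hv
  refine ⟨a * T1, a * S1, a * S2, a * P1, a * P2, ?_, ?_, ?_, ?_⟩
  · intro ε hε
    filter_upwards [a1 (ε / a) (div_pos hε ha)] with h h1
    have h2 := mul_le_mul_of_nonneg_left h1 ha.le
    have h3 : a * (ε / a * h) = ε * h := by field_simp
    linarith
  · intro ε hε
    filter_upwards [a2 (ε / a) (div_pos hε ha)] with h h1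
    have h2 := mul_le_mul_of_nonneg_left h1 ha.le
    have h3 : a * (ε / a * h ^ 2) = ε * h ^ 2 := by field_simp
    linarith
  · intro ε hε
    filter_upwards [a3 (ε / a) (div_pos hε ha)] with h h1
    have h2 := mul_le_mul_of_nonneg_left h1 ha.le
    have h3 : a * (ε / a * h ^ 2) = ε * h ^ 2 := by field_simp
    linarith
  · have h2 := mul_le_mul_of_nonneg_left a4 ha.le
    have e : a * P2 / F p.1 ^ 2 = a * (P2 / F p.1 ^ 2) := mul_div_assoc _ _ _
    rw [e]
    linarith

lemma mono (F : ℝ → ℝ) (v w : ℝ → X → ℝ) (t : ℝ) (p : X) (he : v t p = w t p)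
    (hle : ∀ᶠ z in 𝓝[Iic t ×ˢ univ] (t, p), v z.1 z.2 ≤ w z.1 z.2) (hv : SubJet F v t p) :
    SubJet F w t p := by
  obtain ⟨T1, S1, S2, P1, P2, a1, a2, a3, a4⟩ := hv
  refine ⟨T1, S1, S2, P1, P2, ?_, ?_, ?_, a4⟩
  · intro ε hε
    have h2 : Tendsto (fun h : ℝ => ((t - h, p) : ℝ × X)) (𝓝[>] 0)
        (𝓝[Iic t ×ˢ univ] (t, p)) := by
      refine tendsto_nhdsWithin_iff.mpr ⟨?_, ?_⟩
      · have hc : Continuous (fun h : ℝ => ((t - h, p) : ℝ × X)) := by fun_prop
        have := hc.tendsto 0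
        simp only [sub_zero] at this
        exact this.mono_left nhdsWithin_le_nhds
      · filter_upwards [self_mem_nhdsWithin] with h h4
        have h5 : (0 : ℝ) < h := h4
        simp only [mem_prod, mem_Iic, mem_univ, and_true]
        linarith
    filter_upwards [a1 ε hε, h2.eventually hle] with h h1 h3
    rw [← he]
    exact h1.trans h3
  · intro ε hε
    have h2 : Tendsto (fun h : ℝ => ((t, ((p.1 + h, p.2) : X)) : ℝ × X)) (𝓝 0)
        (𝓝[Iic t ×ˢ univ] (t, p)) := by
      refine tendsto_nhdsWithin_iff.mpr ⟨?_, ?_⟩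
      · have hc : Continuous (fun h : ℝ => ((t, ((p.1 + h, p.2) : X)) : ℝ × X)) := by fun_prop
        have := hc.tendsto 0
        simpa only [add_zero] using this
      · filter_upwards with h
        simp
    filter_upwards [a2 ε hε, h2.eventually hle] with h h1 h3
    rw [← he]
    exact h1.trans h3
  · intro ε hε
    have h2 : Tendsto (fun h : ℝ => ((t, ((p.1, p.2 + h) : X)) : ℝ × X)) (𝓝 0)
        (𝓝[Iic t ×ˢ univ] (t, p)) := by
      refine tendsto_nhdsWithin_iff.mpr ⟨?_, ?_⟩
      · have hc : Continuous (fun h : ℝ => ((t, ((p.1, p.2 + h) : X)) : ℝ × X)) := by fun_prop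
        have := hc.tendsto 0
        simpa only [add_zero] using this
      · filter_upwards with h
        simp
    filter_upwards [a3 ε hε, h2.eventually hle] with h h1 h3
    rw [← he]
    exact h1.trans h3

lemma shift (F : ℝ → ℝ) (v : ℝ → X → ℝ) (δ t : ℝ) (p : X) (hv : SubJet F v (δ + t) p) :
    SubJet F (fun t p => v (δ + t) p) t p := by
  obtain ⟨T1, S1, S2, P1, P2, a1, a2, a3, a4⟩ := hv
  refine ⟨T1, S1, S2, P1, P2, ?_, a2, a3, a4⟩
  intro ε hε
  filter_upwards [a1 ε hε] with h h1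
  have e : δ + (t - h) = δ + t - h := by ring
  simpa only [e] using h1

lemma jg0 (F : ℝ → ℝ) (v : ℝ → X → ℝ) (t : ℝ) (p : X) (k : ℤ) (hF : Prof F)
    (hv : SubJet F v t (gk k p)) : SubJet F (fun t p => v t (gk k p)) t p := by
  obtain ⟨T1, S1, S2, P1, P2, a1, a2, a3, a4⟩ := hv
  have hs : (-1 : ℝ) ^ k = 1 ∨ (-1 : ℝ) ^ k = -1 := by
    have h := neg_one_zpow_sq k
    have h2 : ((-1 : ℝ) ^ k - 1) * ((-1 : ℝ) ^ k + 1) = 0 := by linear_combination h
    rcases mul_eq_zero.mp h2 with h3 | h3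
    · left; linarith
    · right; linarith
  have hodd : ∀ s, deriv F (-s) = -deriv F s := by
    intro s
    have h1 : F = fun x => F (-x) := by funext x; exact (hF.even x).symm
    have h2 : deriv F s = deriv (fun x => F (-x)) s := by rw [← h1]
    rw [deriv_comp_neg] at h2
    linarith
  refine ⟨T1, (-1) ^ k * S1, S2, P1, P2, a1, ?_, ?_, ?_⟩
  · intro ε hε
    rcases hs with hs | hs
    · filter_upwards [a2 ε hε] with h h1
      have e : gk k (p.1 + h, p.2) = ((gk k p).1 + h, (gk k p).2) := by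
        ext
        · simp [hs]
        · simp
      rw [e, hs]
      linarith
    · have hneg : Tendsto (fun h : ℝ => -h) (𝓝 0) (𝓝 0) := by
        have := continuous_neg.tendsto (0 : ℝ)
        rwa [neg_zero] at this
      filter_upwards [hneg.eventually (a2 ε hε)] with h h1
      have e : gk k (p.1 + h, p.2) = ((gk k p).1 + -h, (gk k p).2) := by
        ext
        · simp [hs]; ring
        · simp
      rw [e, hs]
      have e2 : (-h) ^ 2 = h ^ 2 := by ring
      rw [e2] at h1
      linarith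
  · intro ε hε
    filter_upwards [a3 ε hε] with h h1
    have e : gk k (p.1, p.2 + h) = ((gk k p).1, (gk k p).2 + h) := by
      ext
      · simp
      · simp; ring
    rw [e]
    exact h1
  · rcases hs with hs | hs
    · have e : (gk k p).1 = p.1 := by simp [hs]
      rw [e] at a4
      rw [hs, one_mul]
      exact a4
    · have e : (gk k p).1 = -p.1 := by simp [hs]
      rw [e, hodd, hF.even] at a4
      rw [hs]
      have e2 : deriv F p.1 / F p.1 * (-1 * S1) = -deriv F p.1 / F p.1 * S1 := by ring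
      rw [e2]
      exact a4

theorem jet : T_JET where
  cls := cls
  cls' := cls'
  add := add
  smul := smul
  cst := cst
  mono := mono
  shift := shift
  g0 := jg0

end Pool.Agent.H21.HK
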