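import Pool.Agent.H21.HK.DD

/-!
# MP_e94f6f_an, module LOC: local comparison with the frozen metric
-/

open MeasureTheory Set Filter Topology
open scoped ContDiff

namespace Pool.Agent.H21.HK

open Pool.Agent.H96.HK

variable {F : ℝ → ℝ}

lemma F_lip (hF : Prof F) (h1 : ∀ s, |deriv F s| ≤ 1) (a b : ℝ) : |F a - F b| ≤ |a - b| := by
  have h := Convex.norm_image_sub_le_of_norm_deriv_le (f := F) (s := univ) (C := 1)
    (x := b) (y := a) (fun x _ => (hF.smooth.differentiable (by simp)).differentiableAt)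
    (fun x _ => by rw [Real.norm_eq_abs]; exact h1 x) convex_univ (mem_univ _) (mem_univ _)
  simpa [Real.norm_eq_abs] using h

lemma nn_nonneg (y p : X) : 0 ≤ nn F y p := Real.sqrt_nonneg _

lemma nn_sq (y p : X) : nn F y p ^ 2 = (p.1 - y.1) ^ 2 + F y.1 ^ 2 * (p.2 - y.2) ^ 2 :=
  Real.sq_sqrt (by positivity)

lemma abs_fst_le_nn (y p : X) : |p.1 - y.1| ≤ nn F y p := by
  unfold nn
  rw [← Real.sqrt_sq_eq_abs]
  refine Real.sqrt_le_sqrt ?_
  have : 0 ≤ F y.1 ^ 2 * (p.2 - y.2) ^ 2 := by positivity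
  linarith

/-- upper bound by the straight path -/
lemma dd_le_nn (hF : Prof F) {K : ℝ} (hK : FB F K) (y p : X) :
    dd F y p ≤ nn F y p * (1 + nn F y p / F 0) := by
  have h0 := hF.pos 0
  set n := nn F y p with hn
  have hn0 : 0 ≤ n := nn_nonneg y p
  refine (dd_le (seg_isPath y p)).trans ?_
  have hle : ∀ t ∈ Icc (0 : ℝ) 1, spd F (seg y p) t ≤ n * (1 + n / F 0) := by
    intro t ht
    have h1 : deriv (fun τ : ℝ => y.1 + τ * (p.1 - y.1)) t = p.1 - y.1 := by
      have := ((hasDerivAt_id t).mul_const (p.1 - y.1)).const_add y.1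
      simpa using this.deriv
    have h2 : deriv (fun τ : ℝ => y.2 + τ * (p.2 - y.2)) t = p.2 - y.2 := by
      have := ((hasDerivAt_id t).mul_const (p.2 - y.2)).const_add y.2
      simpa using this.deriv
    have h3 : F (y.1 + t * (p.1 - y.1)) ≤ F y.1 * (1 + n / F 0) := by
      have h4 := F_lip hF hK.d1 (y.1 + t * (p.1 - y.1)) y.1
      have h5 : |y.1 + t * (p.1 - y.1) - y.1| ≤ n := by
        have : y.1 + t * (p.1 - y.1) - y.1 = t * (p.1 - y.1) := by ring
        rw [this, abs_mul, abs_of_nonneg ht.1]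
        calc t * |p.1 - y.1| ≤ 1 * |p.1 - y.1| :=
              mul_le_mul_of_nonneg_right ht.2 (abs_nonneg _)
          _ ≤ n := by rw [one_mul]; exact abs_fst_le_nn y p
      have h6 := (le_abs_self _).trans (h4.trans h5)
      have h7 : n ≤ F y.1 * (n / F 0) := by
        rw [mul_div_assoc', le_div_iff₀ h0, mul_comm]
        exact mul_le_mul_of_nonneg_right (hK.m0 _) hn0
      linarith [mul_add (F y.1) 1 (n / F 0)]
    have h8 : 0 ≤ n / F 0 := by positivity
    unfold spd seg
    simp only [h1, h2]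
    refine Real.sqrt_le_iff.mpr ⟨by positivity, ?_⟩
    rw [mul_pow, hn, nn_sq, ← hn]
    have h9 : F (y.1 + t * (p.1 - y.1)) ^ 2 ≤ (F y.1 * (1 + n / F 0)) ^ 2 :=
      pow_le_pow_left₀ (hF.pos _).le h3 2
    have h10 := mul_le_mul_of_nonneg_right h9 (sq_nonneg (p.2 - y.2))
    have h11 : (1 : ℝ) ≤ (1 + n / F 0) ^ 2 := by
      rw [one_le_sq_iff_one_le_abs, abs_of_nonneg (by positivity)]
      linarith
    have h12 := mul_le_mul_of_nonneg_left h11 (sq_nonneg (p.1 - y.1))
    linarith [mul_pow (F y.1) (1 + n / F 0) 2]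
  have hint := intervalIntegral.integral_mono_on (a := 0) (b := 1) zero_le_one
    ((spd_continuous hF.continuous (seg_isPath y p).c1).intervalIntegrable _ _)
    (continuous_const.intervalIntegrable (μ := volume) 0 1) hle
  simpa [len] using hint

/-- lower bound, without restriction -/
lemma nn_le_dd (hF : Prof F) {K : ℝ} (hK : FB F K) (y p : X) :
    nn F y p ≤ dd F y p * (1 + nn F y p / F 0) := by
  have h0 := hF.pos 0
  set n := nn F y p with hn
  have hn0 : 0 ≤ n := nn_nonneg y p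
  rcases hn0.eq_or_lt with hz | hnpos
  · rw [← hz]
    simpa using dd_nn y p
  have hden : 0 < 1 + n / F 0 := by positivity
  rw [← div_le_iff₀ hden]
  refine le_dd fun c hc => ?_
  rw [div_le_iff₀ hden]
  set L := len F c with hL
  have hL0 : 0 ≤ L := len_nonneg c
  have hcont := spd_continuous hF.continuous hc.c1
  by_cases hLF : F 0 ≤ L
  · have : n ≤ F 0 * (1 + n / F 0) := by
      rw [mul_add, mul_one, mul_div_cancel₀ _ h0.ne']
      linarith
    exact this.trans (mul_le_mul_of_nonneg_right hLF hden.le)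
  push Not at hLF
  -- the path stays close to `y`
  have hclose : ∀ t ∈ Icc (0 : ℝ) 1, |(c t).1 - y.1| ≤ L := by
    intro t ht
    have h1 := dd_ge1 hF.continuous (c 0) (c t)
    have h2 := dd_len hF.continuous c 0 t ht.1 hc.c1
    have h3 : ∫ τ in (0 : ℝ)..t, spd F c τ ≤ L := by
      have h4 := intervalIntegral.integral_add_adjacent_intervals
        (hcont.intervalIntegrable (μ := volume) 0 t) (hcont.intervalIntegrable t 1)
      have h5 : 0 ≤ ∫ τ in t..1, spd F c τ :=
        intervalIntegral.integral_nonneg ht.2 fun τ _ => spd_nonneg c τ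
      have h6 : L = ∫ τ in (0 : ℝ)..1, spd F c τ := rfl
      linarith
    rw [hc.st] at h1
    rw [hc.st] at h2
    rw [abs_sub_comm]
    linarith
  set a := (p.1 - y.1) / n with ha
  set b := F y.1 * (p.2 - y.2) / n with hb
  have hab : a ^ 2 + b ^ 2 = 1 := by
    rw [ha, hb, div_pow, div_pow, ← add_div, mul_pow, ← nn_sq, ← hn]
    exact div_self (by positivity)
  set lam := 1 - L / F 0 with hlam
  have hlam0 : 0 ≤ lam := by
    rw [hlam, sub_nonneg, div_le_one h0]; exact hLF.le
  have hlam1 : lam ≤ 1 := by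
    rw [hlam]
    have : 0 ≤ L / F 0 := by positivity
    linarith
  have hd1 : ∀ t, HasDerivAt (fun τ => (c τ).1) (deriv (fun τ => (c τ).1) t) t := fun t =>
    ((hc.c1.fst).differentiable (by simp)).differentiableAt.hasDerivAt
  have hd2 : ∀ t, HasDerivAt (fun τ => (c τ).2) (deriv (fun τ => (c τ).2) t) t := fun t =>
    ((hc.c1.snd).differentiable (by simp)).differentiableAt.hasDerivAt
  have hc1 : Continuous (deriv (fun τ => (c τ).1)) := (hc.c1.fst).continuous_deriv le_rfl
  have hc2 : Continuous (deriv (fun τ => (c τ).2)) := (hc.c1.snd).continuous_deriv le_rfl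
  have hpt : ∀ t ∈ Icc (0 : ℝ) 1, lam * (a * deriv (fun τ => (c τ).1) t +
      b * F y.1 * deriv (fun τ => (c τ).2) t) ≤ spd F c t := by
    intro t ht
    set A := deriv (fun τ => (c τ).1) t
    set B := deriv (fun τ => (c τ).2) t
    have hFs : lam * F y.1 ≤ F (c t).1 := by
      have h1 := (abs_le.mp ((F_lip hF hK.d1 (c t).1 y.1).trans (hclose t ht))).1
      have h2 : L ≤ L / F 0 * F y.1 := by
        rw [div_mul_eq_mul_div, le_div_iff₀ h0]
        exact mul_le_mul_of_nonneg_left (hK.m0 _) hL0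
      have h3 : lam * F y.1 = F y.1 - L / F 0 * F y.1 := by rw [hlam]; ring
      linarith
    have hsq : lam ^ 2 * F y.1 ^ 2 ≤ F (c t).1 ^ 2 := by
      rw [← mul_pow]
      exact pow_le_pow_left₀ (mul_nonneg hlam0 (hF.pos _).le) hFs 2
    unfold spd
    refine Real.le_sqrt_of_sq_le ?_
    have hCS : (a * A + b * F y.1 * B) ^ 2 ≤ A ^ 2 + F y.1 ^ 2 * B ^ 2 := by
      have h1 : A ^ 2 + F y.1 ^ 2 * B ^ 2 - (a * A + b * F y.1 * B) ^ 2 =
          (b * A - a * (F y.1 * B)) ^ 2 + (1 - (a ^ 2 + b ^ 2)) * (A ^ 2 + F y.1 ^ 2 * B ^ 2) := by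
        ring
      rw [hab] at h1
      nlinarith [sq_nonneg (b * A - a * (F y.1 * B))]
    calc (lam * (a * A + b * F y.1 * B)) ^ 2 = lam ^ 2 * (a * A + b * F y.1 * B) ^ 2 := by ring
      _ ≤ lam ^ 2 * (A ^ 2 + F y.1 ^ 2 * B ^ 2) := mul_le_mul_of_nonneg_left hCS (sq_nonneg _)
      _ = lam ^ 2 * A ^ 2 + lam ^ 2 * F y.1 ^ 2 * B ^ 2 := by ring
      _ ≤ 1 * A ^ 2 + F (c t).1 ^ 2 * B ^ 2 := by
        have h1 : lam ^ 2 ≤ 1 := pow_le_one₀ hlam0 hlam1
        exact add_le_add (mul_le_mul_of_nonneg_right h1 (sq_nonneg _))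
          (mul_le_mul_of_nonneg_right hsq (sq_nonneg _))
      _ = A ^ 2 + F (c t).1 ^ 2 * B ^ 2 := by ring
  have hcc : Continuous (fun t => lam * (a * deriv (fun τ => (c τ).1) t +
      b * F y.1 * deriv (fun τ => (c τ).2) t)) :=
    continuous_const.mul ((continuous_const.mul hc1).add (continuous_const.mul hc2))
  have hint : ∫ t in (0 : ℝ)..1, lam * (a * deriv (fun τ => (c τ).1) t +
      b * F y.1 * deriv (fun τ => (c τ).2) t) ≤ ∫ t in (0 : ℝ)..1, spd F c t :=
    intervalIntegral.integral_mono_on zero_le_one (hcc.intervalIntegrable _ _)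
      (hcont.intervalIntegrable _ _) hpt
  have hval : ∫ t in (0 : ℝ)..1, lam * (a * deriv (fun τ => (c τ).1) t +
      b * F y.1 * deriv (fun τ => (c τ).2) t) = lam * n := by
    have hD : ∀ t, HasDerivAt (fun t => lam * (a * (c t).1 + b * F y.1 * (c t).2))
        (lam * (a * deriv (fun τ => (c τ).1) t + b * F y.1 * deriv (fun τ => (c τ).2) t)) t :=
      fun t => ((((hd1 t).const_mul a).add ((hd2 t).const_mul (b * F y.1))).const_mul lam)
    rw [intervalIntegral.integral_eq_sub_of_hasDerivAt (fun t _ => hD t)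
        (hcc.intervalIntegrable _ _), hc.en, hc.st]
    have h7 : n * n = (p.1 - y.1) ^ 2 + F y.1 ^ 2 * (p.2 - y.2) ^ 2 := by
      rw [← nn_sq, ← hn]; ring
    have h8 : a * (p.1 - y.1) + b * F y.1 * (p.2 - y.2) = n := by
      rw [ha, hb]
      field_simp
      linarith
    linear_combination lam * h8
  rw [hval] at hint
  have h9 : (∫ t in (0 : ℝ)..1, spd F c t) = L := rfl
  rw [h9, hlam] at hint
  have : L * (1 + n / F 0) = L + L / F 0 * n := by ring
  rw [this]
  linarith

theorem loc (hFB : T_FB) : T_LOC := by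
  intro F hF y p
  obtain ⟨K, hK⟩ := hFB F hF
  have h0 := hF.pos 0
  have h1 := nn_le_dd hF hK y p
  have hn := nn_nonneg (F := F) y p
  refine ⟨?_, dd_le_nn hF hK y p, fun _ => ?_⟩
  · have hden : 0 < 1 + nn F y p / F 0 := by positivity
    have h2 : nn F y p * (1 - nn F y p / F 0) * (1 + nn F y p / F 0) ≤
        dd F y p * (1 + nn F y p / F 0) := by
      refine le_trans ?_ h1
      have : nn F y p * (1 - nn F y p / F 0) * (1 + nn F y p / F 0) =
          nn F y p - nn F y p * (nn F y p / F 0) ^ 2 := by ring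
      rw [this]
      have : 0 ≤ nn F y p * (nn F y p / F 0) ^ 2 := by positivity
      linarith
    exact le_of_mul_le_mul_right h2 hden
  · have : dd F y p * (1 + nn F y p / F 0) = dd F y p + nn F y p * (dd F y p / F 0) := by ring
    rw [this] at h1
    linarith

end Pool.Agent.H21.HK
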