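import Pool.Agent.H96.HK.Basic

/-!
# MP_e94f6f_an, module WS1: convergence of the sum over the lifts
-/

open MeasureTheory Set Filter Topology
open scoped ContDiff

namespace Pool.Agent.H21.HK

open Pool.Agent.H96.HK

variable {F : ℝ → ℝ}

lemma dd_cont (hD : DD F) (y : X) : Continuous (fun p => dd F p y) := by
  refine continuous_iff_continuousAt.mpr fun p => ?_
  have h1 : ∀ p' : X, ‖dd F p' y - dd F p y‖ ≤ |p.1 - p'.1| + (1 + |p.1|) * |p.2 - p'.2| := by
    intro p'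
    rw [Real.norm_eq_abs, abs_le]
    have h1 := hD.tri p' p y
    have h2 := hD.tri p p' y
    have h3 := hD.le1 p p'
    have h4 := hD.symm p' p
    constructor <;> linarith
  have h2 : Tendsto (fun p' : X => |p.1 - p'.1| + (1 + |p.1|) * |p.2 - p'.2|) (𝓝 p) (𝓝 0) := by
    have hc : Continuous (fun p' : X => |p.1 - p'.1| + (1 + |p.1|) * |p.2 - p'.2|) := by fun_prop
    have := hc.tendsto p
    simpa using this
  have h3 : Tendsto (fun p' => dd F p' y - dd F p y) (𝓝 p) (𝓝 0) :=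
    squeeze_zero_norm h1 h2
  have := h3.add_const (dd F p y)
  simpa [ContinuousAt] using this

lemma sq_shift_ge (x : ℝ) (k : ℤ) :
    |(k : ℝ)| - x ^ 2 ≤ (x - k * (Real.pi / 2)) ^ 2 := by
  have hpi : 3 < Real.pi := Real.pi_gt_three
  have h1 : |(k : ℝ)| ≤ (k : ℝ) ^ 2 := by
    have : |k| ≤ k ^ 2 := by
      rcases abs_cases k with ⟨h, h'⟩ | ⟨h, h'⟩
      · rw [h]; nlinarith
      · rw [h]; nlinarith
    exact_mod_cast this
  have h2 : (k : ℝ) ^ 2 ≤ (k * (Real.pi / 2)) ^ 2 / 2 := by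
    have h3 : (1 : ℝ) ≤ (Real.pi / 2) ^ 2 / 2 := by nlinarith
    have := mul_le_mul_of_nonneg_left h3 (sq_nonneg (k : ℝ))
    calc (k : ℝ) ^ 2 = (k : ℝ) ^ 2 * 1 := by ring
      _ ≤ (k : ℝ) ^ 2 * ((Real.pi / 2) ^ 2 / 2) := this
      _ = _ := by ring
  nlinarith [sq_nonneg (x - (x - k * (Real.pi / 2)) / 1), sq_nonneg (2 * x - k * (Real.pi / 2))]

/-- geometric series over the integers -/
lemma summable_geo {r : ℝ} (h0 : 0 ≤ r) (h1 : r < 1) :
    Summable (fun k : ℤ => r ^ k.natAbs) := by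
  refine Summable.of_nat_of_neg ?_ ?_
  · simpa using summable_geometric_of_lt_one h0 h1
  · simpa using summable_geometric_of_lt_one h0 h1

/-- geometric bound for the terms -/
lemma exp_le_geo {c : ℝ} (hc : 0 ≤ c) {x A : ℝ} (hA : |x| ≤ A) (k : ℤ) :
    Real.exp (-(c * (x - k * (Real.pi / 2)) ^ 2)) ≤
      Real.exp (c * A ^ 2) * Real.exp (-c) ^ k.natAbs := by
  rw [← Real.exp_nat_mul, ← Real.exp_add]
  refine Real.exp_le_exp.mpr ?_
  have h1 := sq_shift_ge x k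
  have h2 : x ^ 2 ≤ A ^ 2 := by
    rw [← sq_abs x]; exact pow_le_pow_left₀ (abs_nonneg _) hA 2
  have h3 : ((k.natAbs : ℕ) : ℝ) = |(k : ℝ)| := by
    rw [Nat.cast_natAbs]; simp
  rw [h3]
  have h4 : |(k : ℝ)| - A ^ 2 ≤ (x - k * (Real.pi / 2)) ^ 2 := by linarith
  have := mul_le_mul_of_nonneg_left h4 hc
  linarith

lemma E2_le_mul {t a b : ℝ} (ht : 0 < t) (h : a ≤ b) :
    E2 t b ≤ (4 * Real.pi * t)⁻¹ * Real.exp (-(a / (4 * t))) := E2_anti ht h

lemma term_bound (hF : Prof F) (hD : DD F) {a b t A : ℝ} (ha : 0 < a) (hta : a ≤ t) (htb : t ≤ b)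
    {p q : X} (hA : |p.2 - q.2| ≤ A) (k : ℤ) :
    E2 t (dd F p (gk k q) ^ 2) ≤ (4 * Real.pi * a)⁻¹ * (Real.exp (F 0 ^ 2 / (4 * b) * A ^ 2) *
      Real.exp (-(F 0 ^ 2 / (4 * b))) ^ k.natAbs) := by
  have ht : 0 < t := ha.trans_le hta
  have hb : 0 < b := ht.trans_le htb
  have hF0 := hF.pos 0
  have h1 : F 0 ^ 2 * ((p.2 - q.2) - k * (Real.pi / 2)) ^ 2 ≤ dd F p (gk k q) ^ 2 := by
    have h2 := hD.ge2 p (gk k q)
    rw [gk_snd] at h2
    have h3 : F 0 ^ 2 * ((p.2 - q.2) - k * (Real.pi / 2)) ^ 2 =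
        (F 0 * |p.2 - (q.2 + k * (Real.pi / 2))|) ^ 2 := by
      rw [mul_pow, sq_abs]; congr 2; ring
    rw [h3]
    exact pow_le_pow_left₀ (by positivity) h2 2
  refine (E2_le_mul ht h1).trans ?_
  refine mul_le_mul ?_ ?_ (Real.exp_pos _).le (by positivity)
  · refine inv_anti₀ (by positivity) ?_
    exact mul_le_mul_of_nonneg_left hta (by positivity)
  · refine le_trans ?_ (exp_le_geo (by positivity) hA k)
    refine Real.exp_le_exp.mpr ?_
    rw [neg_le_neg_iff, div_mul_eq_mul_div]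
    exact div_le_div_of_nonneg_left (by positivity) (by positivity) (by linarith)

lemma ws_summable (hF : Prof F) (hD : DD F) {t : ℝ} (ht : 0 < t) (p q : X) :
    Summable (fun k : ℤ => E2 t (dd F p (gk k q) ^ 2)) := by
  have hF0 := hF.pos 0
  refine Summable.of_nonneg_of_le (fun k => (E2_pos' ht _).le)
    (fun k => term_bound hF hD ht le_rfl le_rfl le_rfl k) ?_
  refine ((summable_geo (Real.exp_pos _).le ?_).mul_left _).mul_left _
  rw [Real.exp_lt_one_iff]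
  have : 0 < F 0 ^ 2 / (4 * t) := by positivity
  linarith

lemma term_continuousOn (hD : DD F) (y : X) :
    ContinuousOn (fun z : ℝ × X => E2 z.1 (dd F z.2 y ^ 2)) (Ioi 0 ×ˢ univ) := by
  unfold E2
  have h1 : Continuous (fun z : ℝ × X => dd F z.2 y) := (dd_cont hD y).comp continuous_snd
  refine ContinuousOn.mul ?_ ?_
  · refine ContinuousOn.inv₀ (by fun_prop) ?_
    rintro ⟨t, p⟩ hz
    have ht : (0 : ℝ) < t := hz.1
    have := Real.pi_pos
    positivity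
  · refine Real.continuous_exp.comp_continuousOn ?_
    refine ContinuousOn.neg (ContinuousOn.div (h1.pow 2).continuousOn (by fun_prop) ?_)
    rintro ⟨t, p⟩ hz
    have ht : (0 : ℝ) < t := hz.1
    positivity

lemma ws_continuousOn (hF : Prof F) (hD : DD F) (q : X) :
    ContinuousOn (fun z : ℝ × X => WS F q z.1 z.2) (Ioi 0 ×ˢ univ) := by
  rintro ⟨t0, p0⟩ hz
  have ht0 : (0 : ℝ) < t0 := hz.1
  have hF0 := hF.pos 0
  refine ContinuousAt.continuousWithinAt ?_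
  set S : Set (ℝ × X) := Ioo (t0 / 2) (2 * t0) ×ˢ {p : X | |p.2 - q.2| < |p0.2 - q.2| + 1}
    with hS
  have hSo : IsOpen S := by
    refine isOpen_Ioo.prod ?_
    exact isOpen_lt (by fun_prop) continuous_const
  have hmem : ((t0, p0) : ℝ × X) ∈ S := by
    refine ⟨⟨by simp; linarith, by simp; linarith⟩, ?_⟩
    show |p0.2 - q.2| < |p0.2 - q.2| + 1
    linarith
  have hcont : ContinuousOn (fun z : ℝ × X => WS F q z.1 z.2) S := by
    unfold WS
    refine continuousOn_tsum (u := fun k : ℤ => (4 * Real.pi * (t0 / 2))⁻¹ *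
      (Real.exp (F 0 ^ 2 / (4 * (2 * t0)) * (|p0.2 - q.2| + 1) ^ 2) *
      Real.exp (-(F 0 ^ 2 / (4 * (2 * t0)))) ^ k.natAbs)) ?_ ?_ ?_
    · intro k
      refine (term_continuousOn hD (gk k q)).mono ?_
      rintro ⟨t, p⟩ ⟨h1, -⟩
      refine ⟨?_, mem_univ _⟩
      have : t0 / 2 < t := h1.1
      show (0 : ℝ) < t
      linarith
    · refine ((summable_geo (Real.exp_pos _).le ?_).mul_left _).mul_left _
      rw [Real.exp_lt_one_iff]
      have : 0 < F 0 ^ 2 / (4 * (2 * t0)) := by positivity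
      linarith
    · rintro k ⟨t, p⟩ ⟨h1, h2⟩
      have ht1 : t0 / 2 < t := h1.1
      have ht2 : t < 2 * t0 := h1.2
      have h2' : |p.2 - q.2| < |p0.2 - q.2| + 1 := h2
      have ht : 0 < t := by linarith
      rw [Real.norm_of_nonneg (E2_pos' ht _).le]
      exact term_bound hF hD (by linarith) ht1.le ht2.le h2'.le k
  exact hcont.continuousAt (hSo.mem_nhds hmem)

lemma ws_ginv (hD : DD F) (q : X) (t : ℝ) : GInv (WS F q t) := by
  intro p
  unfold WS
  have h : ∀ k : ℤ, E2 t (dd F (g0 p) (gk k q) ^ 2) = E2 t (dd F p (gk (k - 1) q) ^ 2) := by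
    intro k
    have h1 : gk k q = gk 1 (gk (k - 1) q) := by
      rw [← gk_add]; congr 1; ring
    rw [h1, ← gk_one p, hD.iso]
  simp_rw [h]
  exact (Equiv.subRight (1 : ℤ)).tsum_eq (fun k : ℤ => E2 t (dd F p (gk k q) ^ 2))

lemma mul_exp_neg_le {t D : ℝ} (ht : 0 < t) (hD : 0 < D) :
    (4 * Real.pi * t)⁻¹ * Real.exp (-(D ^ 2 / (8 * t))) ≤ 1 / D ^ 2 := by
  have h1 : 0 < D ^ 2 / (8 * t) := by positivity
  have h2 : D ^ 2 / (8 * t) ≤ Real.exp (D ^ 2 / (8 * t)) := by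
    have := Real.add_one_le_exp (D ^ 2 / (8 * t)); linarith
  have h3 : Real.exp (-(D ^ 2 / (8 * t))) ≤ (D ^ 2 / (8 * t))⁻¹ := by
    rw [Real.exp_neg]; exact inv_anti₀ h1 h2
  have hpi : 3 < Real.pi := Real.pi_gt_three
  calc _ ≤ (4 * Real.pi * t)⁻¹ * (D ^ 2 / (8 * t))⁻¹ :=
        mul_le_mul_of_nonneg_left h3 (by positivity)
    _ = (2 / Real.pi) * (1 / D ^ 2) := by field_simp; norm_num
    _ ≤ 1 * (1 / D ^ 2) := by
        refine mul_le_mul_of_nonneg_right ?_ (by positivity)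
        rw [div_le_one Real.pi_pos]; linarith
    _ = 1 / D ^ 2 := one_mul _

lemma ws_decay (hF : Prof F) (hD : DD F) (q : X) {T : ℝ} (hT : 0 < T) {ε : ℝ} (hε : 0 < ε) :
    ∃ R, ∀ t ∈ Ioc 0 T, ∀ p : X, R ≤ |p.1| → WS F q t p ≤ ε := by
  have hF0 := hF.pos 0
  have hpi := Real.pi_pos
  set r := Real.exp (-(F 0 ^ 2 / (8 * T))) with hr
  set u : ℤ → ℝ := fun k => Real.exp (F 0 ^ 2 / (8 * T) * 1 ^ 2) * r ^ k.natAbs with hu
  have hus : Summable u := by
    refine (summable_geo (Real.exp_pos _).le ?_).mul_left _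
    rw [Real.exp_lt_one_iff]
    have : 0 < F 0 ^ 2 / (8 * T) := by positivity
    linarith
  have hu0 : ∀ k, 0 ≤ u k := fun k => by rw [hu]; positivity
  set C := ∑' k, u k with hC
  have hC0 : 0 ≤ C := tsum_nonneg hu0
  refine ⟨|q.1| + 1 + C / ε, fun t ht p hp => ?_⟩
  have ht0 : 0 < t := ht.1
  -- reduction to `|p.2 - q.2| ≤ 1`
  set j : ℤ := -round ((p.2 - q.2) / (Real.pi / 2)) with hj
  have hinv : WS F q t p = WS F q t (gk j p) := ((ws_ginv hD q t).gk j p).symm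
  rw [hinv]
  have hp1 : |(gk j p).1| = |p.1| := abs_gk_fst j p
  have hp2 : |(gk j p).2 - q.2| ≤ 1 := by
    rw [gk_snd, hj]
    have h1 := abs_sub_round ((p.2 - q.2) / (Real.pi / 2))
    have h2 : p.2 + ((-round ((p.2 - q.2) / (Real.pi / 2)) : ℤ) : ℝ) * (Real.pi / 2) - q.2 =
        ((p.2 - q.2) / (Real.pi / 2) - round ((p.2 - q.2) / (Real.pi / 2))) * (Real.pi / 2) := by
      push_cast
      field_simp
      ring
    rw [h2, abs_mul, abs_of_pos (by positivity : 0 < Real.pi / 2)]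
    have h3 : Real.pi < 4 := Real.pi_lt_four
    calc _ ≤ 1 / 2 * (Real.pi / 2) := mul_le_mul_of_nonneg_right h1 (by positivity)
      _ ≤ 1 := by linarith
  generalize gk j p = p' at hp1 hp2
  set D := |p'.1| - |q.1| with hDdef
  have hDge : 1 + C / ε ≤ D := by rw [hDdef, hp1]; linarith
  have hCε : 0 ≤ C / ε := by positivity
  have hDpos : 0 < D := by linarith
  have hterm : ∀ k : ℤ, E2 t (dd F p' (gk k q) ^ 2) ≤ 1 / D ^ 2 * u k := by
    intro k
    have h1 : D ≤ dd F p' (gk k q) := by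
      have h2 := hD.ge1 p' (gk k q)
      have h3 := abs_sub_abs_le_abs_sub p'.1 (gk k q).1
      rw [abs_gk_fst] at h3
      linarith
    have h2 : F 0 ^ 2 * ((p'.2 - q.2) - k * (Real.pi / 2)) ^ 2 ≤ dd F p' (gk k q) ^ 2 := by
      have h2 := hD.ge2 p' (gk k q)
      rw [gk_snd] at h2
      have h3 : F 0 ^ 2 * ((p'.2 - q.2) - k * (Real.pi / 2)) ^ 2 =
          (F 0 * |p'.2 - (q.2 + k * (Real.pi / 2))|) ^ 2 := by
        rw [mul_pow, sq_abs]; congr 2; ring
      rw [h3]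
      exact pow_le_pow_left₀ (by positivity) h2 2
    have h3 : D ^ 2 ≤ dd F p' (gk k q) ^ 2 := pow_le_pow_left₀ hDpos.le h1 2
    have h4 : D ^ 2 / 2 + F 0 ^ 2 * ((p'.2 - q.2) - k * (Real.pi / 2)) ^ 2 / 2 ≤
        dd F p' (gk k q) ^ 2 := by linarith
    refine (E2_le_mul ht0 h4).trans ?_
    have h5 : Real.exp (-((D ^ 2 / 2 + F 0 ^ 2 * ((p'.2 - q.2) - k * (Real.pi / 2)) ^ 2 / 2) /
        (4 * t))) ≤ Real.exp (-(D ^ 2 / (8 * t))) * u k := by
      have h6 : Real.exp (-(F 0 ^ 2 / (8 * T) * ((p'.2 - q.2) - k * (Real.pi / 2)) ^ 2)) ≤ u k :=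
        exp_le_geo (by positivity) hp2 k
      refine le_trans ?_ (mul_le_mul_of_nonneg_left h6 (Real.exp_pos _).le)
      rw [← Real.exp_add]
      refine Real.exp_le_exp.mpr ?_
      have h7 : (D ^ 2 / 2 + F 0 ^ 2 * ((p'.2 - q.2) - k * (Real.pi / 2)) ^ 2 / 2) / (4 * t) =
          D ^ 2 / (8 * t) + F 0 ^ 2 * ((p'.2 - q.2) - k * (Real.pi / 2)) ^ 2 / (8 * t) := by
        field_simp
        ring
      rw [h7]
      have h8 : F 0 ^ 2 / (8 * T) * ((p'.2 - q.2) - k * (Real.pi / 2)) ^ 2 ≤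
          F 0 ^ 2 * ((p'.2 - q.2) - k * (Real.pi / 2)) ^ 2 / (8 * t) := by
        rw [div_mul_eq_mul_div]
        exact div_le_div_of_nonneg_left (by positivity) (by positivity) (by linarith [ht.2])
      linarith
    calc _ ≤ (4 * Real.pi * t)⁻¹ * (Real.exp (-(D ^ 2 / (8 * t))) * u k) :=
          mul_le_mul_of_nonneg_left h5 (by positivity)
      _ = ((4 * Real.pi * t)⁻¹ * Real.exp (-(D ^ 2 / (8 * t)))) * u k := by ring
      _ ≤ 1 / D ^ 2 * u k := mul_le_mul_of_nonneg_right (mul_exp_neg_le ht0 hDpos) (hu0 k)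
  have hsum : WS F q t p' ≤ 1 / D ^ 2 * C := by
    unfold WS
    rw [hC, ← tsum_mul_left]
    exact (ws_summable hF hD ht0 p' q).tsum_le_tsum hterm (hus.mul_left _)
  refine hsum.trans ?_
  have h1 : D ≤ D ^ 2 := by nlinarith
  have h2 : 1 / D ^ 2 * C ≤ C / D := by
    rw [one_div, inv_mul_eq_div]
    exact div_le_div_of_nonneg_left hC0 hDpos h1
  refine h2.trans ?_
  rw [div_le_iff₀ hDpos]
  have : C ≤ ε * (C / ε) := by rw [mul_div_cancel₀ _ hε.ne']
  nlinarith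

theorem ws1 (hDD : T_DD) : T_WS1 := by
  intro F hF q
  have hD := hDD F hF
  exact ⟨fun t ht p => ws_summable hF hD ht p q, ws_continuousOn hF hD q,
    fun t _ => ws_ginv hD q t, fun T hT ε hε => ws_decay hF hD q hT hε⟩

end Pool.Agent.H21.HK
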