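import Pool.Agent.H21.HK.WS1
import Pool.Agent.H21.HK.LOC
import Pool.Agent.H21.HK.JET

/-!
# MP_e94f6f_an, module WS2: the sum over the lifts is a supersolution
-/

open MeasureTheory Set Filter Topology
open scoped ContDiff

namespace Pool.Agent.H21.HK

open Pool.Agent.H96.HK

variable {F : ℝ → ℝ}

/-! ### a general lemma on sums -/

lemma sum_low {ι : Type*} {l : Filter ℝ} (g : ι → ℝ → ℝ) (w : ℝ → ℝ) (C : ι → ℝ) (K0 : Finset ι)
    (hw : ∀ᶠ h in l, 0 ≤ w h) (hs : ∀ᶠ h in l, Summable (fun k => g k h)) (hC : Summable C)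
    (h1 : ∀ k, ∀ ε > 0, ∀ᶠ h in l, -ε * w h ≤ g k h)
    (h2 : ∀ᶠ h in l, ∀ k ∉ K0, -C k * w h ≤ g k h) :
    ∀ ε > 0, ∀ᶠ h in l, -ε * w h ≤ ∑' k, g k h := by
  classical
  intro ε hε
  have ht := tendsto_tsum_compl_atTop_zero C
  have h3 : ∀ᶠ s : Finset ι in atTop, ∑' a : {x // x ∉ s}, C a < ε / 2 :=
    ht.eventually (Iio_mem_nhds (half_pos hε))
  obtain ⟨s, hs1, hs2⟩ := (h3.and (eventually_ge_atTop K0)).exists
  set ε' := ε / (2 * ((s.card : ℝ) + 1)) with hε'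
  have hε'0 : 0 < ε' := by positivity
  have h4 : ∀ᶠ h in l, ∀ k ∈ s, -ε' * w h ≤ g k h :=
    (Finset.eventually_all s).mpr fun k _ => h1 k ε' hε'0
  set L : ι → ℝ := fun k => if k ∈ s then -ε' else -C k with hL
  have hLs : Summable L := by
    refine (hC.neg).congr_cofinite ?_
    have : ∀ᶠ k in cofinite, k ∉ s := by
      rw [eventually_cofinite]; simpa using s.finite_toSet
    filter_upwards [this] with k hk
    simp [hL, hk]
  have hLt : -ε ≤ ∑' k, L k := by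
    have h5 := hLs.sum_add_tsum_subtype_compl s
    have h6 : ∑ k ∈ s, L k = -(s.card * ε') := by
      rw [Finset.sum_congr rfl (g := fun _ => -ε') (fun k hk => by simp [hL, hk])]
      simp
    have h7 : ∑' a : {x // x ∉ s}, L a = -∑' a : {x // x ∉ s}, C a := by
      rw [← tsum_neg]
      refine tsum_congr fun a => ?_
      simp [hL, a.2]
    have h8 : (s.card : ℝ) * ε' ≤ ε / 2 := by
      rw [hε', mul_div_assoc', div_le_iff₀ (by positivity)]
      nlinarith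
    rw [← h5, h6]
    rw [h7]; linarith
  filter_upwards [hw, hs, h4, h2] with h hw' hs' h4' h2'
  have h5 : ∀ k, L k * w h ≤ g k h := by
    intro k
    by_cases hk : k ∈ s
    · simp only [hL, hk, if_true]; exact h4' k hk
    · simp only [hL, hk, if_false]
      exact h2' k fun hk' => hk (hs2 hk')
  have h6 := (hLs.mul_right (w h)).tsum_le_tsum h5 hs'
  rw [tsum_mul_right] at h6
  exact (mul_le_mul_of_nonneg_right hLt hw').trans h6

/-! ### Gaussians -/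

lemma E2_hasDerivAt_rho {t : ℝ} (ht : 0 < t) (ρ : ℝ) :
    HasDerivAt (fun ρ => E2 t (ρ ^ 2)) (-(ρ / (2 * t)) * E2 t (ρ ^ 2)) ρ := by
  unfold E2
  have h1 : HasDerivAt (fun ρ : ℝ => -(ρ ^ 2 / (4 * t))) (-(ρ / (2 * t))) ρ := by
    have := ((hasDerivAt_pow 2 ρ).div_const (4 * t)).neg
    refine this.congr_deriv ?_
    field_simp
    norm_num
    ring
  have h2 := (h1.exp).const_mul (4 * Real.pi * t)⁻¹
  refine h2.congr_deriv ?_
  ring

lemma E2_hasDerivAt_rho2 {t : ℝ} (ht : 0 < t) (ρ : ℝ) :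
    HasDerivAt (fun ρ => -(ρ / (2 * t)) * E2 t (ρ ^ 2))
      ((-(1 / (2 * t)) + ρ ^ 2 / (4 * t ^ 2)) * E2 t (ρ ^ 2)) ρ := by
  have h1 : HasDerivAt (fun ρ : ℝ => -(ρ / (2 * t))) (-(1 / (2 * t))) ρ :=
    ((hasDerivAt_id ρ).div_const (2 * t)).neg
  refine (h1.mul (E2_hasDerivAt_rho ht ρ)).congr_deriv ?_
  field_simp
  ring

lemma E2_hasDerivAt_t {t : ℝ} (ht : 0 < t) (r : ℝ) :
    HasDerivAt (fun τ => E2 τ r) ((-(1 / t) + r / (4 * t ^ 2)) * E2 t r) t := by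
  unfold E2
  have hpi := Real.pi_pos
  have h1 : HasDerivAt (fun τ : ℝ => (4 * Real.pi * τ)⁻¹) (-(4 * Real.pi) / (4 * Real.pi * t) ^ 2)
      t := by
    have h0 : HasDerivAt (fun τ : ℝ => 4 * Real.pi * τ) (4 * Real.pi) t := by
      simpa using (hasDerivAt_id t).const_mul (4 * Real.pi)
    exact h0.fun_inv (by positivity)
  have h2 : HasDerivAt (fun τ : ℝ => -(r / (4 * τ))) (r / (4 * t ^ 2)) t := by
    have h0 : HasDerivAt (fun τ : ℝ => 4 * τ) 4 t := by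
      simpa using (hasDerivAt_id t).const_mul (4 : ℝ)
    have h3 := ((h0.fun_inv (by positivity)).const_mul r).fun_neg
    refine (h3.congr_deriv ?_).congr_of_eventuallyEq ?_
    · field_simp
    · filter_upwards with τ
      simp [div_eq_mul_inv]
  refine (h1.mul h2.exp).congr_deriv ?_
  field_simp

/-- derivatives of `-E2 t (ρ²)` along a line -/
lemma chain2 {t : ℝ} (ht : 0 < t) {ρ : ℝ → ℝ} {x : ℝ} (h : ContDiffAt ℝ 2 ρ x) :
    ContDiffAt ℝ 2 (fun x => -E2 t (ρ x ^ 2)) x ∧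
    deriv (fun x => -E2 t (ρ x ^ 2)) x = ρ x / (2 * t) * E2 t (ρ x ^ 2) * deriv ρ x ∧
    deriv (deriv (fun x => -E2 t (ρ x ^ 2))) x =
      -((-(1 / (2 * t)) + ρ x ^ 2 / (4 * t ^ 2)) * E2 t (ρ x ^ 2) * deriv ρ x ^ 2) +
        ρ x / (2 * t) * E2 t (ρ x ^ 2) * deriv (deriv ρ) x := by
  have hE : ContDiff ℝ 2 (fun ρ : ℝ => -E2 t (ρ ^ 2)) := by
    unfold E2
    fun_prop
  have hd : ∀ᶠ y in 𝓝 x, DifferentiableAt ℝ ρ y := by
    filter_upwards [h.eventually (by simp)] with y hy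
    exact hy.differentiableAt (by simp)
  have h1 : ∀ y, DifferentiableAt ℝ ρ y → HasDerivAt (fun x => -E2 t (ρ x ^ 2))
      (ρ y / (2 * t) * E2 t (ρ y ^ 2) * deriv ρ y) y := by
    intro y hy
    have := ((E2_hasDerivAt_rho ht (ρ y)).comp y hy.hasDerivAt).neg
    refine this.congr_deriv ?_
    ring
  have h2 : DifferentiableAt ℝ (deriv ρ) x := by
    have h3 : ContDiffAt ℝ 1 (fderiv ℝ ρ) x := h.fderiv_right (m := 1) (by norm_num)
    have h4 : DifferentiableAt ℝ (fderiv ℝ ρ) x := h3.differentiableAt (by simp)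
    have h5 : deriv ρ = fun y => fderiv ℝ ρ y 1 := by
      funext y; exact (fderiv_apply_one_eq_deriv).symm
    rw [h5]
    exact h4.clm_apply (differentiableAt_const _)
  refine ⟨ContDiffAt.comp x (g := fun ρ : ℝ => -E2 t (ρ ^ 2)) hE.contDiffAt h,
    (h1 x hd.self_of_nhds).deriv, ?_⟩
  have h3 : deriv (fun x => -E2 t (ρ x ^ 2)) =ᶠ[𝓝 x]
      fun y => -(-(ρ y / (2 * t)) * E2 t (ρ y ^ 2)) * deriv ρ y := by
    filter_upwards [hd] with y hy
    rw [(h1 y hy).deriv]; ring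
  rw [h3.deriv_eq]
  have h4 := (E2_hasDerivAt_rho2 ht (ρ x)).comp x hd.self_of_nhds.hasDerivAt
  have h5 := (h4.neg).mul h2.hasDerivAt
  have h6 : deriv (fun y => -(-(ρ y / (2 * t)) * E2 t (ρ y ^ 2)) * deriv ρ y) x = _ := h5.deriv
  rw [h6]
  simp only [Pi.neg_apply, Function.comp_apply]
  ring

/-- Taylor with a uniform bound -/
lemma taylor_bound {f : ℝ → ℝ} {x B : ℝ} (hf : ∀ y, |y - x| < 1 → ContDiffAt ℝ 2 f y)
    (hB : ∀ y, |y - x| < 1 → |deriv (deriv f) y| ≤ B) {h : ℝ} (hh : |h| < 1) :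
    |f (x + h) - f x - deriv f x * h| ≤ B * h ^ 2 := by
  have hconv : Convex ℝ (Ioo (x - 1) (x + 1)) := convex_Ioo _ _
  have hmem : ∀ y, y ∈ Ioo (x - 1) (x + 1) ↔ |y - x| < 1 := by
    intro y
    rw [mem_Ioo, abs_lt]
    constructor
    · rintro ⟨a, b⟩; constructor <;> linarith
    · rintro ⟨a, b⟩; constructor <;> linarith
  have hd2 : ∀ y ∈ Ioo (x - 1) (x + 1), DifferentiableAt ℝ (deriv f) y := by
    intro y hy
    have h3 : ContDiffAt ℝ 1 (fderiv ℝ f) y := (hf y ((hmem y).mp hy)).fderiv_right (m := 1)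
      (by norm_num)
    have h4 : DifferentiableAt ℝ (fderiv ℝ f) y := h3.differentiableAt (by simp)
    have h5 : deriv f = fun y => fderiv ℝ f y 1 := by
      funext y; exact (fderiv_apply_one_eq_deriv).symm
    rw [h5]
    exact h4.clm_apply (differentiableAt_const _)
  have hB0 : 0 ≤ B := (abs_nonneg _).trans (hB x (by simp))
  have hlip : ∀ y ∈ Ioo (x - 1) (x + 1), |deriv f y - deriv f x| ≤ B * |y - x| := by
    intro y hy
    have := hconv.norm_image_sub_le_of_norm_deriv_le (f := deriv f) (C := B) (x := x) (y := y)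
      hd2 (fun z hz => by rw [Real.norm_eq_abs]; exact hB z ((hmem z).mp hz))
      (by rw [hmem]; simp) hy
    simpa [Real.norm_eq_abs] using this
  have hsub : ∀ k ∈ uIcc 0 h, |k| ≤ |h| := by
    intro k hk
    rw [mem_uIcc] at hk
    rcases hk with ⟨a, b⟩ | ⟨a, b⟩
    · rw [abs_of_nonneg a, abs_of_nonneg (a.trans b)]; exact b
    · rw [abs_of_nonpos b, abs_of_nonpos (a.trans b)]; linarith
  let φ : ℝ → ℝ := fun k => f (x + k) - f x - deriv f x * k
  have hder : ∀ k ∈ uIcc 0 h, HasDerivWithinAt φ (deriv f (x + k) - deriv f x) (uIcc 0 h) k := by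
    intro k hk
    have hk' : |x + k - x| < 1 := by
      rw [add_sub_cancel_left]; exact (hsub k hk).trans_lt hh
    have hd : DifferentiableAt ℝ f (x + k) := (hf _ hk').differentiableAt (by simp)
    have e1 : HasDerivAt (fun k => f (x + k)) (deriv f (x + k)) k := by
      have := hd.hasDerivAt.comp_const_add x k
      simpa using this
    have e2 : HasDerivAt (fun k : ℝ => deriv f x * k) (deriv f x) k := by
      simpa using (hasDerivAt_id k).const_mul (deriv f x)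
    exact ((e1.sub_const (f x)).sub e2).hasDerivWithinAt
  have hbd : ∀ k ∈ uIcc 0 h, ‖deriv f (x + k) - deriv f x‖ ≤ B * |h| := by
    intro k hk
    have hk' : x + k ∈ Ioo (x - 1) (x + 1) := by
      rw [hmem, add_sub_cancel_left]; exact (hsub k hk).trans_lt hh
    have := hlip _ hk'
    rw [add_sub_cancel_left] at this
    rw [Real.norm_eq_abs]
    exact this.trans (mul_le_mul_of_nonneg_left (hsub k hk) hB0)
  have := Convex.norm_image_sub_le_of_norm_hasDerivWithin_le hder hbd (convex_uIcc 0 h)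
    left_mem_uIcc right_mem_uIcc
  have e0 : φ 0 = 0 := by simp [φ]
  rw [e0, sub_zero, sub_zero, Real.norm_eq_abs, Real.norm_eq_abs] at this
  calc _ = |φ h| := rfl
    _ ≤ B * |h| * |h| := this
    _ = B * h ^ 2 := by rw [mul_assoc, abs_mul_abs_self]; ring

/-! ### one term -/

/-- minus the Gaussian with pole `y` -/
noncomputable def vy (F : ℝ → ℝ) (y : X) (t : ℝ) (p : X) : ℝ := -E2 t (dd F y p ^ 2)

structure Num (F : ℝ → ℝ) (v : ℝ → X → ℝ) (t : ℝ) (p : X) (T1 S1 S2 P1 P2 : ℝ) : Prop where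
  a1 : ∀ ε > 0, ∀ᶠ h in 𝓝[>] (0 : ℝ), -ε * h ≤ v (t - h) p - v t p + T1 * h
  a2 : ∀ ε > 0, ∀ᶠ h in 𝓝 (0 : ℝ),
    -ε * h ^ 2 ≤ v t (p.1 + h, p.2) - v t p - S1 * h - S2 * h ^ 2 / 2
  a3 : ∀ ε > 0, ∀ᶠ h in 𝓝 (0 : ℝ),
    -ε * h ^ 2 ≤ v t (p.1, p.2 + h) - v t p - P1 * h - P2 * h ^ 2 / 2
  a4 : T1 ≤ S2 + deriv F p.1 / F p.1 * S1 + P2 / F p.1 ^ 2

structure Tl (v : ℝ → X → ℝ) (t : ℝ) (p : X) (T1 S1 S2 P1 P2 B : ℝ) : Prop where
  b1 : ∀ h, 0 < h → h < t / 2 → -(2 * B) * h ≤ v (t - h) p - v t p + T1 * h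
  b2 : ∀ h, |h| < 1 → -(2 * B) * h ^ 2 ≤ v t (p.1 + h, p.2) - v t p - S1 * h - S2 * h ^ 2 / 2
  b3 : ∀ h, |h| < 1 → -(2 * B) * h ^ 2 ≤ v t (p.1, p.2 + h) - v t p - P1 * h - P2 * h ^ 2 / 2
  c1 : |T1| ≤ B
  c2 : |S1| ≤ B
  c3 : |S2| ≤ B
  c4 : |P1| ≤ B
  c5 : |P2| ≤ B

/-- the box around `p` -/
def Box (p : X) : Set X := {p' | |p'.1 - p.1| ≤ 1 ∧ |p'.2 - p.2| ≤ 1}

/-- the constant in the bounds -/
noncomputable def Mc (p : X) (K t : ℝ) : ℝ :=
  (2 + |p.1|) ^ 2 * (4 + K) * (1 / t + 1 / t ^ 2)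

lemma time_num {t : ℝ} (ht : 0 < t) (y p : X) : ∀ ε > 0, ∀ᶠ h in 𝓝[>] (0 : ℝ),
    -ε * h ≤ vy F y (t - h) p - vy F y t p +
      (1 / t - dd F y p ^ 2 / (4 * t ^ 2)) * E2 t (dd F y p ^ 2) * h := by
  intro ε hε
  have hD : HasDerivAt (fun τ => vy F y τ p)
      ((1 / t - dd F y p ^ 2 / (4 * t ^ 2)) * E2 t (dd F y p ^ 2)) t := by
    have := (E2_hasDerivAt_t ht (dd F y p ^ 2)).neg
    refine this.congr_deriv ?_
    ring
  have h1 := (hasDerivAt_iff_isLittleO_nhds_zero.mp hD).def hε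
  have h2 : Tendsto (fun h : ℝ => -h) (𝓝[>] 0) (𝓝 0) := by
    have : Tendsto (fun h : ℝ => -h) (𝓝 0) (𝓝 (-0)) := continuous_neg.tendsto 0
    rw [neg_zero] at this
    exact this.mono_left nhdsWithin_le_nhds
  filter_upwards [h2.eventually h1, self_mem_nhdsWithin] with h h3 h4
  have h5 : (0 : ℝ) < h := h4
  simp only [Real.norm_eq_abs, smul_eq_mul] at h3
  rw [abs_neg, abs_of_pos h5] at h3
  have h6 := (abs_le.mp h3).1
  have h7 : t + -h = t - h := by ring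
  rw [h7] at h6
  linarith

/-- the term away from its pole -/
lemma num_away (hF : Prof F) {K : ℝ} (hK : FB F K) (hRHO : T_RHO) {t : ℝ} (ht : 0 < t)
    {y p : X} (hy : p ≠ y) :
    Num F (vy F y) t p ((1 / t - dd F y p ^ 2 / (4 * t ^ 2)) * E2 t (dd F y p ^ 2))
      (ds (vy F y t) p) (ds (ds (vy F y t)) p) (dp (vy F y t) p) (dp (dp (vy F y t)) p) := by
  obtain ⟨hc, heik, hlb, -, -, -⟩ := hRHO F K hF hK y p hy
  have hs : ContDiffAt ℝ 2 (fun a => dd F y (a, p.2)) p.1 := by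
    have h1 : ContDiffAt ℝ 2 (fun a : ℝ => ((a, p.2) : X)) p.1 :=
      contDiffAt_id.prodMk contDiffAt_const
    exact ContDiffAt.comp p.1 (f := fun a : ℝ => ((a, p.2) : X)) (g := dd F y)
      (by simpa using hc) h1
  have hp : ContDiffAt ℝ 2 (fun b => dd F y (p.1, b)) p.2 := by
    have h1 : ContDiffAt ℝ 2 (fun b : ℝ => ((p.1, b) : X)) p.2 :=
      contDiffAt_const.prodMk contDiffAt_id
    exact ContDiffAt.comp p.2 (f := fun b : ℝ => ((p.1, b) : X)) (g := dd F y)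
      (by simpa using hc) h1
  obtain ⟨s1, s2, s3⟩ := chain2 ht hs
  obtain ⟨p1, p2, p3⟩ := chain2 ht hp
  refine ⟨time_num ht y p, ?_, ?_, ?_⟩
  · intro ε hε
    filter_upwards [peano_low s1 hε] with h hh
    have e1 : deriv (fun a => -E2 t (dd F y (a, p.2) ^ 2)) p.1 = ds (vy F y t) p := rfl
    have e2 : deriv (deriv (fun a => -E2 t (dd F y (a, p.2) ^ 2))) p.1 =
      ds (ds (vy F y t)) p := rfl
    rw [e1, e2] at hh
    have e3 : vy F y t (p.1 + h, p.2) = -E2 t (dd F y (p.1 + h, p.2) ^ 2) := rfl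
    have e4 : vy F y t p = -E2 t (dd F y (p.1, p.2) ^ 2) := rfl
    rw [e3, e4]
    linarith
  · intro ε hε
    filter_upwards [peano_low p1 hε] with h hh
    have e1 : deriv (fun b => -E2 t (dd F y (p.1, b) ^ 2)) p.2 = dp (vy F y t) p := rfl
    have e2 : deriv (deriv (fun b => -E2 t (dd F y (p.1, b) ^ 2))) p.2 =
      dp (dp (vy F y t)) p := rfl
    rw [e1, e2] at hh
    have e3 : vy F y t (p.1, p.2 + h) = -E2 t (dd F y (p.1, p.2 + h) ^ 2) := rfl
    have e4 : vy F y t p = -E2 t (dd F y (p.1, p.2) ^ 2) := rfl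
    rw [e3, e4]
    linarith
  · have e1 : ds (vy F y t) p = dd F y p / (2 * t) * E2 t (dd F y p ^ 2) * ds (dd F y) p := s2
    have e2 : ds (ds (vy F y t)) p =
      -((-(1 / (2 * t)) + dd F y p ^ 2 / (4 * t ^ 2)) * E2 t (dd F y p ^ 2) *
        ds (dd F y) p ^ 2) +
        dd F y p / (2 * t) * E2 t (dd F y p ^ 2) * ds (ds (dd F y)) p := s3
    have e3 : dp (dp (vy F y t)) p =
      -((-(1 / (2 * t)) + dd F y p ^ 2 / (4 * t ^ 2)) * E2 t (dd F y p ^ 2) *
        dp (dd F y) p ^ 2) +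
        dd F y p / (2 * t) * E2 t (dd F y p ^ 2) * dp (dp (dd F y)) p := p3
    rw [e1, e2, e3]
    have hρ0 : 0 < dd F y p := by
      have h1 := nn_le_dd hF hK y p
      have h0 := hF.pos 0
      by_contra hneg
      have h2 : dd F y p = 0 := le_antisymm (not_lt.mp hneg) (dd_nn y p)
      rw [h2, zero_mul] at h1
      have h3 : nn F y p = 0 := le_antisymm h1 (nn_nonneg y p)
      have h4 := nn_sq (F := F) y p
      rw [h3] at h4
      have h5 : (p.1 - y.1) ^ 2 = 0 := by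
        have := sq_nonneg (p.1 - y.1)
        have : 0 ≤ F y.1 ^ 2 * (p.2 - y.2) ^ 2 := by positivity
        nlinarith
      have h6 : F y.1 ^ 2 * (p.2 - y.2) ^ 2 = 0 := by
        rw [h5] at h4; linarith
      have h7 : (p.2 - y.2) ^ 2 = 0 := by
        rcases mul_eq_zero.mp h6 with h | h
        · exact absurd (pow_eq_zero_iff (by norm_num) |>.mp h) (hF.pos _).ne'
        · exact h
      exact hy (Prod.ext (sub_eq_zero.mp (pow_eq_zero_iff (by norm_num) |>.mp h5))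
        (sub_eq_zero.mp (pow_eq_zero_iff (by norm_num) |>.mp h7)))
    set ρ := dd F y p
    set e := E2 t (ρ ^ 2) with he
    have he0 : 0 < e := E2_pos' ht _
    have hFp := hF.pos p.1
    unfold LB at hlb
    set A := ds (dd F y) p
    set B := dp (dd F y) p
    set A2 := ds (ds (dd F y)) p
    set B2 := dp (dp (dd F y)) p
    have hX : -((-(1 / (2 * t)) + ρ ^ 2 / (4 * t ^ 2)) * e * A ^ 2) + ρ / (2 * t) * e * A2 +
        deriv F p.1 / F p.1 * (ρ / (2 * t) * e * A) +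
        (-((-(1 / (2 * t)) + ρ ^ 2 / (4 * t ^ 2)) * e * B ^ 2) + ρ / (2 * t) * e * B2) /
          F p.1 ^ 2 =
        -((-(1 / (2 * t)) + ρ ^ 2 / (4 * t ^ 2)) * e * (A ^ 2 + B ^ 2 / F p.1 ^ 2)) +
        ρ / (2 * t) * e * (A2 + deriv F p.1 / F p.1 * A + B2 / F p.1 ^ 2) := by ring
    rw [hX, heik, mul_one]
    have h1 : 0 < ρ / (2 * t) * e := by positivity
    have h2 := mul_le_mul_of_nonneg_left hlb h1.le
    have h3 : ρ / (2 * t) * e * (1 / ρ) = e * (1 / (2 * t)) := by field_simp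
    rw [h3] at h2
    have h4 : (1 / t - ρ ^ 2 / (4 * t ^ 2)) * e =
        -((-(1 / (2 * t)) + ρ ^ 2 / (4 * t ^ 2)) * e) + e * (1 / (2 * t)) := by
      field_simp
      ring
    rw [h4]
    linarith

/-- second order lower expansion at the pole -/
lemma pole_low (hF : Prof F) {K : ℝ} (hK : FB F K) {t : ℝ} (ht : 0 < t) {p : X} {c : ℝ}
    (hc : 0 < c) (γ : ℝ → X) (hγ : ∀ h, nn F p (γ h) = c * |h|) :
    ∀ ε > 0, ∀ᶠ h in 𝓝 (0 : ℝ), -ε * h ^ 2 ≤ vy F p t (γ h) - vy F p t p - 0 * h -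
      (c ^ 2 * (E2 t 0 / (2 * t))) * h ^ 2 / 2 := by
  intro ε hε
  have h0 := hF.pos 0
  have hE0 : 0 < E2 t 0 := E2_pos' ht 0
  have hpp : dd F p p = 0 := dd_self p
  -- smallness condition
  have hcont : Tendsto (fun h : ℝ => E2 t 0 * ((c * |h|) * (c ^ 2 / (2 * t * F 0)) +
      (c * |h|) ^ 2 * (c ^ 2 / (32 * t ^ 2)))) (𝓝 0) (𝓝 0) := by
    have hc' : Continuous (fun h : ℝ => E2 t 0 * ((c * |h|) * (c ^ 2 / (2 * t * F 0)) +
      (c * |h|) ^ 2 * (c ^ 2 / (32 * t ^ 2)))) := by fun_prop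
    have := hc'.tendsto 0
    simpa using this
  have hsm : Tendsto (fun h : ℝ => c * |h|) (𝓝 0) (𝓝 0) := by
    have hc' : Continuous (fun h : ℝ => c * |h|) := by fun_prop
    have := hc'.tendsto 0
    simpa using this
  filter_upwards [hcont.eventually (Iio_mem_nhds hε),
    hsm.eventually (Iio_mem_nhds (half_pos h0))] with h h1 h2
  have h1' : E2 t 0 * ((c * |h|) * (c ^ 2 / (2 * t * F 0)) +
      (c * |h|) ^ 2 * (c ^ 2 / (32 * t ^ 2))) < ε := h1
  have h2' : c * |h| < F 0 / 2 := h2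
  set n := c * |h| with hn
  have hn0 : 0 ≤ n := by positivity
  have hnn := nn_le_dd hF hK p (γ h)
  rw [hγ h, ← hn] at hnn
  have hd0 := dd_nn (F := F) p (γ h)
  set d := dd F p (γ h) with hd
  -- `d² ≥ n² (1 - 2 n / F 0)`
  have hd2 : n ^ 2 * (1 - 2 * n / F 0) ≤ d ^ 2 := by
    have h3 : n * (1 - n / F 0) ≤ d := by
      have hden : 0 < 1 + n / F 0 := by positivity
      have h4 : n * (1 - n / F 0) * (1 + n / F 0) ≤ d * (1 + n / F 0) := by
        refine le_trans ?_ hnn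
        have : n * (1 - n / F 0) * (1 + n / F 0) = n - n * (n / F 0) ^ 2 := by ring
        rw [this]
        have : 0 ≤ n * (n / F 0) ^ 2 := by positivity
        linarith
      exact le_of_mul_le_mul_right h4 hden
    have h5 : 0 ≤ n * (1 - n / F 0) := by
      refine mul_nonneg hn0 ?_
      rw [sub_nonneg, div_le_one h0]; linarith
    have h6 := pow_le_pow_left₀ h5 h3 2
    refine le_trans ?_ h6
    have : (n * (1 - n / F 0)) ^ 2 = n ^ 2 * (1 - 2 * n / F 0) + n ^ 2 * (n / F 0) ^ 2 := by ring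
    rw [this]
    have : 0 ≤ n ^ 2 * (n / F 0) ^ 2 := by positivity
    linarith
  have hz0 : 0 ≤ n ^ 2 * (1 - 2 * n / F 0) := by
    refine mul_nonneg (sq_nonneg _) ?_
    rw [sub_nonneg, div_le_one h0]; linarith
  set z := n ^ 2 * (1 - 2 * n / F 0) / (4 * t) with hz
  have hz0' : 0 ≤ z := by positivity
  have hexp : Real.exp (-z) ≤ 1 - z + z ^ 2 / 2 := by
    -- `exp(-z) (1 + z + z²/2) ≤ 1` and `(1 - z + z²/2)(1 + z + z²/2) ≥ 1`
    have h7 : 1 + z + z ^ 2 / 2 ≤ Real.exp z := Real.quadratic_le_exp_of_nonneg hz0'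
    have h8 : 0 < 1 + z + z ^ 2 / 2 := by positivity
    rw [Real.exp_neg]
    refine (inv_anti₀ h8 h7).trans ?_
    rw [inv_le_comm₀ h8 (by nlinarith [sq_nonneg (z - 1)]), ← one_div,
      div_le_iff₀ (by nlinarith [sq_nonneg (z - 1)])]
    nlinarith [pow_nonneg hz0' 4]
  have hEd : E2 t (d ^ 2) ≤ E2 t 0 * (1 - z + z ^ 2 / 2) := by
    refine (E2_anti ht hd2).trans ?_
    have e1 : E2 t 0 = (4 * Real.pi * t)⁻¹ := by unfold E2; simp
    have e2 : E2 t (n ^ 2 * (1 - 2 * n / F 0)) = (4 * Real.pi * t)⁻¹ * Real.exp (-z) := rfl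
    rw [e1, e2]
    exact mul_le_mul_of_nonneg_left hexp (by have := Real.pi_pos; positivity)
  have hz1 : z ≤ n ^ 2 / (4 * t) := by
    rw [hz]
    refine div_le_div_of_nonneg_right ?_ (by positivity)
    have : 0 ≤ 2 * n / F 0 := by positivity
    nlinarith [sq_nonneg n]
  have hz2 : z ^ 2 ≤ (n ^ 2 / (4 * t)) ^ 2 := pow_le_pow_left₀ hz0' hz1 2
  have hz3 : z = n ^ 2 / (4 * t) - n ^ 3 / (2 * t * F 0) := by
    rw [hz]; field_simp; ring
  have hnh : n ^ 2 = c ^ 2 * h ^ 2 := by rw [hn, mul_pow, sq_abs]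
  unfold vy
  rw [hpp, ← hd]
  have e0 : E2 t ((0 : ℝ) ^ 2) = E2 t 0 := by norm_num
  rw [e0]
  have h9 : E2 t 0 * (1 - z + z ^ 2 / 2) ≤ E2 t 0 * (1 - n ^ 2 / (4 * t)) + ε * h ^ 2 := by
    have h10 : E2 t 0 * (1 - z + z ^ 2 / 2) ≤ E2 t 0 * (1 - n ^ 2 / (4 * t) +
        n ^ 3 / (2 * t * F 0) + (n ^ 2 / (4 * t)) ^ 2 / 2) := by
      refine mul_le_mul_of_nonneg_left ?_ hE0.le
      linarith
    have h11 : E2 t 0 * (1 - n ^ 2 / (4 * t) + n ^ 3 / (2 * t * F 0) +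
        (n ^ 2 / (4 * t)) ^ 2 / 2) = E2 t 0 * (1 - n ^ 2 / (4 * t)) +
        (E2 t 0 * (n * (c ^ 2 / (2 * t * F 0)) + n ^ 2 * (c ^ 2 / (32 * t ^ 2)))) * h ^ 2 := by
      have e3 : n ^ 3 = n * (c ^ 2 * h ^ 2) := by rw [← hnh]; ring
      have e4 : (n ^ 2 / (4 * t)) ^ 2 / 2 = n ^ 2 * (c ^ 2 * h ^ 2) / (32 * t ^ 2) := by
        rw [← hnh]; field_simp; ring
      rw [e3, e4]
      ring
    rw [h11] at h10
    have h12 := mul_le_mul_of_nonneg_right h1'.le (sq_nonneg h)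
    linarith
  have h13 : E2 t 0 * (1 - n ^ 2 / (4 * t)) = E2 t 0 -
      c ^ 2 * (E2 t 0 / (2 * t)) * h ^ 2 / 2 := by
    rw [hnh]; field_simp; ring
  linarith

lemma num_pole (hF : Prof F) {K : ℝ} (hK : FB F K) {t : ℝ} (ht : 0 < t) (p : X) :
    Num F (vy F p) t p ((1 / t - dd F p p ^ 2 / (4 * t ^ 2)) * E2 t (dd F p p ^ 2))
      0 (1 ^ 2 * (E2 t 0 / (2 * t))) 0 (F p.1 ^ 2 * (E2 t 0 / (2 * t))) := by
  have hFp := hF.pos p.1
  refine ⟨time_num ht p p, ?_, ?_, ?_⟩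
  · refine pole_low hF hK ht one_pos (fun h => (p.1 + h, p.2)) ?_
    intro h
    unfold nn
    simp [Real.sqrt_sq_eq_abs]
  · refine pole_low hF hK ht hFp (fun h => (p.1, p.2 + h)) ?_
    intro h
    unfold nn
    simp only [sub_self, add_sub_cancel_left]
    rw [show (0 : ℝ) ^ 2 + F p.1 ^ 2 * h ^ 2 = (F p.1 * h) ^ 2 by ring, Real.sqrt_sq_eq_abs,
      abs_mul, abs_of_pos hFp]
  · rw [dd_self]
    have e0 : E2 t ((0 : ℝ) ^ 2) = E2 t 0 := by norm_num
    rw [e0]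
    have : F p.1 ^ 2 * (E2 t 0 / (2 * t)) / F p.1 ^ 2 = E2 t 0 / (2 * t) := by field_simp
    rw [this]
    refine le_of_eq ?_
    field_simp
    ring

/-! ### uniform bounds for far poles -/

lemma alg_first {t K ρ e q1 x : ℝ} (ht : 0 < t) (hK1 : 1 ≤ K) (he0 : 0 < e) (h1 : 1 ≤ ρ)
    (hx : |x| ≤ q1 ^ 2) : |ρ / (2 * t) * e * x| ≤
      q1 ^ 2 * (4 + K) * (1 / t + 1 / t ^ 2) * ((1 + ρ ^ 2) * e) := by
  have hρ : 0 < ρ := by linarith
  have hρρ : ρ ≤ 1 + ρ ^ 2 := by nlinarith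
  have hti : 0 < 1 / t := by positivity
  have hti2 : 0 < 1 / t ^ 2 := by positivity
  rw [abs_mul, abs_mul, abs_of_pos he0, abs_of_pos (by positivity : 0 < ρ / (2 * t))]
  calc ρ / (2 * t) * e * |x| ≤ ρ / (2 * t) * e * q1 ^ 2 :=
        mul_le_mul_of_nonneg_left hx (by positivity)
    _ = q1 ^ 2 * (ρ * (1 / t) * (1 / 2)) * e := by field_simp
    _ ≤ q1 ^ 2 * ((1 + ρ ^ 2) * ((4 + K) * (1 / t + 1 / t ^ 2))) * e := by
        refine mul_le_mul_of_nonneg_right (mul_le_mul_of_nonneg_left ?_ (by positivity)) he0.le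
        have h3 : ρ * (1 / t) * (1 / 2) ≤ (1 + ρ ^ 2) * (1 / t) * 1 := by
          refine mul_le_mul ?_ (by norm_num) (by norm_num) (by positivity)
          exact mul_le_mul_of_nonneg_right hρρ hti.le
        refine h3.trans ?_
        rw [mul_one]
        refine mul_le_mul_of_nonneg_left ?_ (by positivity)
        nlinarith
    _ = _ := by ring

lemma alg_second {t K ρ e q1 x z Q : ℝ} (ht : 0 < t) (hK1 : 1 ≤ K) (he0 : 0 < e) (h1 : 1 ≤ ρ)
    (hQ1 : 1 ≤ Q) (hx : x ^ 2 ≤ Q) (hz : |z| ≤ Q * (2 + K * ρ)) (hQ : Q ≤ q1 ^ 2) :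
    |-((-(1 / (2 * t)) + ρ ^ 2 / (4 * t ^ 2)) * e * x ^ 2) + ρ / (2 * t) * e * z| ≤
      q1 ^ 2 * (4 + K) * (1 / t + 1 / t ^ 2) * ((1 + ρ ^ 2) * e) := by
  have hρ : 0 < ρ := by linarith
  have hti : 0 < 1 / t := by positivity
  have hti2 : 0 < 1 / t ^ 2 := by positivity
  have h3 : |-((-(1 / (2 * t)) + ρ ^ 2 / (4 * t ^ 2)) * e * x ^ 2)| ≤
      (1 / (2 * t) + ρ ^ 2 / (4 * t ^ 2)) * e * Q := by
    rw [abs_neg, abs_mul, abs_mul, abs_of_pos he0, abs_of_nonneg (sq_nonneg x)]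
    refine mul_le_mul (mul_le_mul_of_nonneg_right ?_ he0.le) hx (sq_nonneg _) (by positivity)
    rw [abs_le]
    have h4 : 0 < 1 / (2 * t) := by positivity
    have h5 : 0 ≤ ρ ^ 2 / (4 * t ^ 2) := by positivity
    constructor <;> linarith
  have h4 : |ρ / (2 * t) * e * z| ≤ ρ / (2 * t) * e * (Q * (2 + K * ρ)) := by
    rw [abs_mul, abs_of_pos (by positivity : 0 < ρ / (2 * t) * e)]
    exact mul_le_mul_of_nonneg_left hz (by positivity)
  refine (abs_add_le _ _).trans ((add_le_add h3 h4).trans ?_)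
  have h5 : (1 / (2 * t) + ρ ^ 2 / (4 * t ^ 2)) * e * Q + ρ / (2 * t) * e * (Q * (2 + K * ρ)) =
      Q * ((1 / t) * (1 / 2 + (2 * ρ + K * ρ ^ 2) / 2) + (1 / t ^ 2) * (ρ ^ 2 / 4)) * e := by
    field_simp
    ring
  rw [h5]
  have h6 : (1 / t) * (1 / 2 + (2 * ρ + K * ρ ^ 2) / 2) + (1 / t ^ 2) * (ρ ^ 2 / 4) ≤
      (1 / t) * ((4 + K) * (1 + ρ ^ 2)) + (1 / t ^ 2) * ((4 + K) * (1 + ρ ^ 2)) := by
    refine add_le_add (mul_le_mul_of_nonneg_left ?_ hti.le)
      (mul_le_mul_of_nonneg_left ?_ hti2.le)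
    · nlinarith [sq_nonneg ρ, mul_nonneg (by linarith : (0 : ℝ) ≤ K) (sq_nonneg ρ)]
    · nlinarith [sq_nonneg ρ, mul_nonneg (by linarith : (0 : ℝ) ≤ K) (sq_nonneg ρ)]
  have h7 : 0 ≤ (1 / t) * (1 / 2 + (2 * ρ + K * ρ ^ 2) / 2) + (1 / t ^ 2) * (ρ ^ 2 / 4) := by
    positivity
  calc _ ≤ q1 ^ 2 * ((1 / t) * ((4 + K) * (1 + ρ ^ 2)) +
        (1 / t ^ 2) * ((4 + K) * (1 + ρ ^ 2))) * e :=
        mul_le_mul_of_nonneg_right (mul_le_mul hQ h6 h7 (by positivity)) he0.le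
    _ = _ := by ring

lemma der_bounds (hF : Prof F) {K : ℝ} (hK : FB F K) (hRHO : T_RHO) {t : ℝ} (ht : 0 < t)
    {y p p' : X} (hp' : p' ∈ Box p) (h1 : 1 ≤ dd F y p') :
    ContDiffAt ℝ 2 (fun a => vy F y t (a, p'.2)) p'.1 ∧
    ContDiffAt ℝ 2 (fun b => vy F y t (p'.1, b)) p'.2 ∧
    |ds (vy F y t) p'| ≤ Mc p K t * ((1 + dd F y p' ^ 2) * E2 t (dd F y p' ^ 2)) ∧
    |ds (ds (vy F y t)) p'| ≤ Mc p K t * ((1 + dd F y p' ^ 2) * E2 t (dd F y p' ^ 2)) ∧
    |dp (vy F y t) p'| ≤ Mc p K t * ((1 + dd F y p' ^ 2) * E2 t (dd F y p' ^ 2)) ∧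
    |dp (dp (vy F y t)) p'| ≤ Mc p K t * ((1 + dd F y p' ^ 2) * E2 t (dd F y p' ^ 2)) := by
  have hy : p' ≠ y := by
    rintro rfl
    rw [dd_self] at h1
    linarith
  obtain ⟨hc, heik, -, -, hss, hpp⟩ := hRHO F K hF hK y p' hy
  have hs : ContDiffAt ℝ 2 (fun a => dd F y (a, p'.2)) p'.1 := by
    have h1 : ContDiffAt ℝ 2 (fun a : ℝ => ((a, p'.2) : X)) p'.1 :=
      contDiffAt_id.prodMk contDiffAt_const
    exact ContDiffAt.comp p'.1 (f := fun a : ℝ => ((a, p'.2) : X)) (g := dd F y)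
      (by simpa using hc) h1
  have hp : ContDiffAt ℝ 2 (fun b => dd F y (p'.1, b)) p'.2 := by
    have h1 : ContDiffAt ℝ 2 (fun b : ℝ => ((p'.1, b) : X)) p'.2 :=
      contDiffAt_const.prodMk contDiffAt_id
    exact ContDiffAt.comp p'.2 (f := fun b : ℝ => ((p'.1, b) : X)) (g := dd F y)
      (by simpa using hc) h1
  obtain ⟨s1, s2, s3⟩ := chain2 ht hs
  obtain ⟨p1, p2, p3⟩ := chain2 ht hp
  refine ⟨s1, p1, ?_⟩
  have e1 : ds (vy F y t) p' = dd F y p' / (2 * t) * E2 t (dd F y p' ^ 2) *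
    ds (dd F y) p' := s2
  have e1' : dp (vy F y t) p' = dd F y p' / (2 * t) * E2 t (dd F y p' ^ 2) *
    dp (dd F y) p' := p2
  have e2 : ds (ds (vy F y t)) p' =
      -((-(1 / (2 * t)) + dd F y p' ^ 2 / (4 * t ^ 2)) * E2 t (dd F y p' ^ 2) *
        ds (dd F y) p' ^ 2) +
        dd F y p' / (2 * t) * E2 t (dd F y p' ^ 2) * ds (ds (dd F y)) p' := s3
  have e3 : dp (dp (vy F y t)) p' =
      -((-(1 / (2 * t)) + dd F y p' ^ 2 / (4 * t ^ 2)) * E2 t (dd F y p' ^ 2) *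
        dp (dd F y) p' ^ 2) +
        dd F y p' / (2 * t) * E2 t (dd F y p' ^ 2) * dp (dp (dd F y)) p' := p3
  rw [e1, e1', e2, e3]
  have hFp := hF.pos p'.1
  have hFup := hK.up p'.1
  have hK1 := hK.K1
  have hp1 : |p'.1| ≤ |p.1| + 1 := by
    have h2 := abs_sub_abs_le_abs_sub p'.1 p.1
    have h3 : |p'.1 - p.1| ≤ 1 := hp'.1
    linarith
  unfold Mc
  set ρ := dd F y p'
  set e := E2 t (ρ ^ 2) with he
  have he0 : 0 < e := E2_pos' ht _
  set A := ds (dd F y) p'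
  set B := dp (dd F y) p'
  set A2 := ds (ds (dd F y)) p'
  set B2 := dp (dp (dd F y)) p'
  set q1 := 2 + |p.1| with hq1
  have hq2 : 2 ≤ q1 := by have := abs_nonneg p.1; linarith
  have hA : A ^ 2 ≤ 1 := by
    have : 0 ≤ B ^ 2 / F p'.1 ^ 2 := by positivity
    linarith
  have hA' : |A| ≤ 1 := by
    rw [← sq_le_one_iff_abs_le_one]; exact hA
  have hBsq : B ^ 2 ≤ q1 ^ 2 := by
    have h2 : B ^ 2 / F p'.1 ^ 2 ≤ 1 := by nlinarith [sq_nonneg A]
    rw [div_le_one (by positivity)] at h2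
    refine h2.trans (pow_le_pow_left₀ hFp.le ?_ 2)
    linarith
  have hB' : |B| ≤ q1 := abs_le_of_sq_le_sq hBsq (by linarith)
  have hρ : 0 < ρ := by linarith
  have hinv : 1 / ρ ≤ 1 := by rw [div_le_one hρ]; exact h1
  have hρρ : ρ ≤ 1 + ρ ^ 2 := by nlinarith
  have hA2 : |A2| ≤ 1 + K * ρ := hss.trans (by linarith)
  have hB2 : |B2| ≤ q1 ^ 2 * (2 + K * ρ) := by
    refine hpp.trans ?_
    have g1 : 1 + 1 / ρ + K * ρ ≤ 2 + K * ρ := by linarith only [hinv]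
    have g2 : (1 + |p'.1|) ^ 2 ≤ q1 ^ 2 := by
      have g3 : 1 + |p'.1| ≤ q1 := by rw [hq1]; linarith only [hp1]
      exact pow_le_pow_left₀ (by positivity) g3 2
    have g4 : 0 ≤ 1 + 1 / ρ + K * ρ := by positivity
    exact mul_le_mul g2 g1 g4 (sq_nonneg q1)
  have hq1sq : 1 ≤ q1 ^ 2 := one_le_pow₀ (by linarith)
  have hqq : q1 ≤ q1 ^ 2 := by nlinarith
  refine ⟨alg_first ht hK1 he0 h1 (hA'.trans hq1sq), ?_,
    alg_first ht hK1 he0 h1 (hB'.trans hqq), ?_⟩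
  · refine alg_second ht hK1 he0 h1 le_rfl hA ?_ hq1sq
    rw [one_mul]
    linarith
  · exact alg_second ht hK1 he0 h1 hq1sq hBsq hB2 le_rfl

lemma tl_away (hF : Prof F) {K : ℝ} (hK : FB F K) (hRHO : T_RHO) {t : ℝ} (ht : 0 < t)
    {y p : X} {B : ℝ} (hbox : ∀ p' ∈ Box p, 1 ≤ dd F y p')
    (hB : ∀ p' ∈ Box p, ∀ τ, t / 2 ≤ τ → τ ≤ t →
      Mc p K t * ((1 + dd F y p' ^ 2) * E2 τ (dd F y p' ^ 2)) ≤ B) :
    Tl (vy F y) t p ((1 / t - dd F y p ^ 2 / (4 * t ^ 2)) * E2 t (dd F y p ^ 2))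
      (ds (vy F y t) p) (ds (ds (vy F y t)) p) (dp (vy F y t) p) (dp (dp (vy F y t)) p) B := by
  have hpbox : p ∈ Box p := by
    constructor <;> simp
  have hK1 := hK.K1
  have hbd := der_bounds hF hK hRHO ht hpbox (hbox p hpbox)
  have hBp := hB p hpbox t (by linarith) le_rfl
  -- the bound of the time derivative
  have htime : ∀ τ, t / 2 ≤ τ → τ ≤ t →
      |(-(1 / τ) + dd F y p ^ 2 / (4 * τ ^ 2)) * E2 τ (dd F y p ^ 2)| ≤ B := by
    intro τ h1 h2
    have hτ : 0 < τ := by linarith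
    refine le_trans ?_ (hB p hpbox τ h1 h2)
    have he0 : 0 < E2 τ (dd F y p ^ 2) := E2_pos' hτ _
    rw [abs_mul, abs_of_pos he0, ← mul_assoc]
    refine mul_le_mul_of_nonneg_right ?_ he0.le
    set ρ := dd F y p
    have h3 : |(-(1 / τ) + ρ ^ 2 / (4 * τ ^ 2))| ≤ 1 / τ + ρ ^ 2 / (4 * τ ^ 2) := by
      rw [abs_le]
      have h4 : 0 < 1 / τ := by positivity
      have h5 : 0 ≤ ρ ^ 2 / (4 * τ ^ 2) := by positivity
      constructor <;> linarith
    refine h3.trans ?_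
    have h4 : 1 / τ ≤ 2 * (1 / t) := by
      rw [div_le_iff₀ hτ]
      have : 2 * (1 / t) * τ = τ / (t / 2) := by field_simp
      rw [this, le_div_iff₀ (by positivity)]
      linarith
    have h5 : ρ ^ 2 / (4 * τ ^ 2) ≤ ρ ^ 2 * (1 / t ^ 2) := by
      rw [mul_one_div]
      refine div_le_div_of_nonneg_left (sq_nonneg _) (by positivity) ?_
      nlinarith
    have h6 : 1 / τ + ρ ^ 2 / (4 * τ ^ 2) ≤ (4 * (1 / t + 1 / t ^ 2)) * (1 + ρ ^ 2) := by
      have h7 : 0 < 1 / t := by positivity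
      have h8 : 0 < 1 / t ^ 2 := by positivity
      nlinarith [mul_nonneg h7.le (sq_nonneg ρ), mul_nonneg h8.le (sq_nonneg ρ)]
    refine h6.trans (mul_le_mul_of_nonneg_right ?_ (by positivity))
    unfold Mc
    have h9 : (1 : ℝ) ≤ (2 + |p.1|) ^ 2 := one_le_pow₀ (by have := abs_nonneg p.1; linarith)
    have h10 : (4 : ℝ) ≤ (2 + |p.1|) ^ 2 * (4 + K) := by nlinarith
    exact mul_le_mul_of_nonneg_right h10 (by positivity)
  have hT1 : |(1 / t - dd F y p ^ 2 / (4 * t ^ 2)) * E2 t (dd F y p ^ 2)| ≤ B := by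
    have := htime t (by linarith) le_rfl
    rw [← abs_neg] at this
    have e : -((-(1 / t) + dd F y p ^ 2 / (4 * t ^ 2)) * E2 t (dd F y p ^ 2)) =
      (1 / t - dd F y p ^ 2 / (4 * t ^ 2)) * E2 t (dd F y p ^ 2) := by ring
    rwa [e] at this
  have hB0 : 0 ≤ B := (abs_nonneg _).trans hT1
  have hS2 := hbd.2.2.2.1.trans hBp
  have hP2 := hbd.2.2.2.2.2.trans hBp
  refine ⟨?_, ?_, ?_, hT1, hbd.2.2.1.trans hBp, hS2, hbd.2.2.2.2.1.trans hBp, hP2⟩
  · intro h hh1 hh2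
    have hmv : ‖E2 (t - h) (dd F y p ^ 2) - E2 t (dd F y p ^ 2)‖ ≤ B * ‖(t - h) - t‖ := by
      refine Convex.norm_image_sub_le_of_norm_hasDerivWithin_le
        (f := fun τ => E2 τ (dd F y p ^ 2)) (s := Icc (t / 2) t)
        (f' := fun τ => (-(1 / τ) + dd F y p ^ 2 / (4 * τ ^ 2)) * E2 τ (dd F y p ^ 2))
        ?_ ?_ (convex_Icc _ _) ?_ ?_
      · intro τ hτ
        exact (E2_hasDerivAt_t (by linarith [hτ.1]) _).hasDerivWithinAt
      · intro τ hτ
        rw [Real.norm_eq_abs]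
        exact htime τ hτ.1 hτ.2
      · exact ⟨by linarith, le_rfl⟩
      · exact ⟨by linarith, by linarith⟩
    rw [Real.norm_eq_abs, Real.norm_eq_abs] at hmv
    have e : |t - h - t| = h := by
      rw [show t - h - t = -h by ring, abs_neg, abs_of_pos hh1]
    rw [e] at hmv
    have h3 := (abs_le.mp hmv).2
    have h4 := (abs_le.mp hT1).1
    have h5 := mul_le_mul_of_nonneg_right h4 hh1.le
    unfold vy
    linarith
  · intro h hh
    have hmem : ∀ a, |a - p.1| < 1 → ((a, p.2) : X) ∈ Box p := by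
      intro a ha
      exact ⟨ha.le, by simp⟩
    have htb := taylor_bound (f := fun a => vy F y t (a, p.2)) (x := p.1) (B := B)
      (fun a ha => (der_bounds hF hK hRHO ht (hmem a ha) (hbox _ (hmem a ha))).1)
      (fun a ha => (der_bounds hF hK hRHO ht (hmem a ha) (hbox _ (hmem a ha))).2.2.2.1.trans
        (hB _ (hmem a ha) t (by linarith) le_rfl)) hh
    have e1 : deriv (fun a => vy F y t (a, p.2)) p.1 = ds (vy F y t) p := rfl
    rw [e1] at htb
    have h3 := (abs_le.mp htb).1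
    have h4 := (abs_le.mp hS2).2
    have h5 := mul_le_mul_of_nonneg_right h4 (sq_nonneg h)
    have h6 : 0 ≤ B * h ^ 2 := by positivity
    have e2 : vy F y t p = vy F y t (p.1, p.2) := rfl
    rw [e2]
    linarith
  · intro h hh
    have hmem : ∀ b, |b - p.2| < 1 → ((p.1, b) : X) ∈ Box p := by
      intro b hb
      exact ⟨by simp, hb.le⟩
    have htb := taylor_bound (f := fun b => vy F y t (p.1, b)) (x := p.2) (B := B)
      (fun b hb => (der_bounds hF hK hRHO ht (hmem b hb) (hbox _ (hmem b hb))).2.1)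
      (fun b hb => (der_bounds hF hK hRHO ht (hmem b hb) (hbox _ (hmem b hb))).2.2.2.2.2.trans
        (hB _ (hmem b hb) t (by linarith) le_rfl)) hh
    have e1 : deriv (fun b => vy F y t (p.1, b)) p.2 = dp (vy F y t) p := rfl
    rw [e1] at htb
    have h3 := (abs_le.mp htb).1
    have h4 := (abs_le.mp hP2).2
    have h5 := mul_le_mul_of_nonneg_right h4 (sq_nonneg h)
    have h6 : 0 ≤ B * h ^ 2 := by positivity
    have e2 : vy F y t p = vy F y t (p.1, p.2) := rfl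
    rw [e2]
    linarith

/-! ### assembly -/

lemma gauss_far {t τ ρ : ℝ} (ht : 0 < t) (h1 : t / 2 ≤ τ) (h2 : τ ≤ t) :
    (1 + ρ ^ 2) * E2 τ (ρ ^ 2) ≤
      (2 * Real.pi * t)⁻¹ * (1 + 8 * t) * Real.exp (-(ρ ^ 2 / (8 * t))) := by
  have hτ : 0 < τ := by linarith
  have hpi := Real.pi_pos
  have h3 : E2 τ (ρ ^ 2) ≤ (2 * Real.pi * t)⁻¹ *
      (Real.exp (-(ρ ^ 2 / (8 * t))) * Real.exp (-(ρ ^ 2 / (8 * t)))) := by
    unfold E2
    refine mul_le_mul ?_ ?_ (Real.exp_pos _).le (by positivity)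
    · refine inv_anti₀ (by positivity) ?_
      nlinarith
    · rw [← Real.exp_add]
      refine Real.exp_le_exp.mpr ?_
      have h4 : ρ ^ 2 / (4 * t) ≤ ρ ^ 2 / (4 * τ) :=
        div_le_div_of_nonneg_left (sq_nonneg _) (by positivity) (by linarith)
      have h5 : -(ρ ^ 2 / (8 * t)) + -(ρ ^ 2 / (8 * t)) = -(ρ ^ 2 / (4 * t)) := by
        field_simp
        norm_num
        ring
      rw [h5]
      linarith
  have h4 : (1 + ρ ^ 2) * Real.exp (-(ρ ^ 2 / (8 * t))) ≤ 1 + 8 * t := by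
    set z := ρ ^ 2 / (8 * t) with hz
    have hz0 : 0 ≤ z := by positivity
    have h5 : ρ ^ 2 = 8 * t * z := by rw [hz]; field_simp
    have h6 : Real.exp (-z) ≤ 1 := by rw [Real.exp_le_one_iff]; linarith
    have h7 : z * Real.exp (-z) ≤ 1 := by
      have h8 : z ≤ Real.exp z := by have := Real.add_one_le_exp z; linarith
      calc z * Real.exp (-z) ≤ Real.exp z * Real.exp (-z) :=
            mul_le_mul_of_nonneg_right h8 (Real.exp_pos _).le
        _ = 1 := by rw [← Real.exp_add]; simp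
    rw [h5]
    have h9 : (1 + 8 * t * z) * Real.exp (-z) = Real.exp (-z) + 8 * t * (z * Real.exp (-z)) := by
      ring
    rw [h9]
    have h10 := mul_le_mul_of_nonneg_left h7 (by positivity : 0 ≤ 8 * t)
    linarith
  calc _ ≤ (1 + ρ ^ 2) * ((2 * Real.pi * t)⁻¹ *
      (Real.exp (-(ρ ^ 2 / (8 * t))) * Real.exp (-(ρ ^ 2 / (8 * t))))) :=
        mul_le_mul_of_nonneg_left h3 (by positivity)
    _ = (2 * Real.pi * t)⁻¹ * ((1 + ρ ^ 2) * Real.exp (-(ρ ^ 2 / (8 * t)))) *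
        Real.exp (-(ρ ^ 2 / (8 * t))) := by ring
    _ ≤ _ := mul_le_mul_of_nonneg_right (mul_le_mul_of_nonneg_left h4 (by positivity))
        (Real.exp_pos _).le

theorem ws2 (hFB : T_FB) (hRHO : T_RHO) : T_WS2 := by
  intro F hF q t p ht
  obtain ⟨K, hK⟩ := hFB F hF
  have hD : DD F := dd_DD hFB F hF
  have hF0 := hF.pos 0
  have hpi := Real.pi_pos
  have hK1 := hK.K1
  set A := |p.2 - q.2| + 1 with hA
  have hA0 : 0 ≤ A := by positivity
  set N : ℕ := ⌈A ^ 2 + 1 / F 0 ^ 2⌉₊ with hN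
  set K0 : Finset ℤ := Finset.Icc (-(N : ℤ)) N with hK0
  set c := F 0 ^ 2 / (8 * t) with hc
  have hc0 : 0 < c := by positivity
  have hMc : 0 ≤ Mc p K t := by unfold Mc; positivity
  set B : ℤ → ℝ := fun k => Mc p K t * ((2 * Real.pi * t)⁻¹ * (1 + 8 * t) *
    (Real.exp (c * A ^ 2) * Real.exp (-c) ^ k.natAbs)) with hB
  have hBs : Summable B := by
    refine (((summable_geo (Real.exp_pos _).le ?_).mul_left _).mul_left _).mul_left _
    rw [Real.exp_lt_one_iff]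
    linarith
  -- the poles
  have hxA : ∀ p' ∈ Box p, |p'.2 - q.2| ≤ A := by
    intro p' hp'
    have h1 : |p'.2 - p.2| ≤ 1 := hp'.2
    calc |p'.2 - q.2| = |(p'.2 - p.2) + (p.2 - q.2)| := by congr 1; ring
      _ ≤ |p'.2 - p.2| + |p.2 - q.2| := abs_add_le _ _
      _ ≤ A := by rw [hA]; linarith
  have hlow : ∀ (p' : X) (k : ℤ), F 0 ^ 2 * ((p'.2 - q.2) - k * (Real.pi / 2)) ^ 2 ≤
      dd F (gk k q) p' ^ 2 := by
    intro p' k
    have h2 := hD.ge2 p' (gk k q)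
    rw [gk_snd, hD.symm] at h2
    have h3 : F 0 ^ 2 * ((p'.2 - q.2) - k * (Real.pi / 2)) ^ 2 =
        (F 0 * |p'.2 - (q.2 + k * (Real.pi / 2))|) ^ 2 := by
      rw [mul_pow, sq_abs]; congr 2; ring
    rw [h3]
    exact pow_le_pow_left₀ (by positivity) h2 2
  have hbox : ∀ k ∉ K0, ∀ p' ∈ Box p, 1 ≤ dd F (gk k q) p' := by
    intro k hk p' hp'
    have h1 : (N : ℝ) ≤ |(k : ℝ)| := by
      have h2 : (N : ℤ) ≤ |k| := by
        by_contra hcon
        push Not at hcon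
        refine hk ?_
        rw [hK0, Finset.mem_Icc, ← abs_le]
        exact hcon.le
      exact_mod_cast h2
    have h2 : A ^ 2 + 1 / F 0 ^ 2 ≤ |(k : ℝ)| := (Nat.le_ceil _).trans h1
    have h3 := sq_shift_ge (p'.2 - q.2) k
    have h4 : (p'.2 - q.2) ^ 2 ≤ A ^ 2 := by
      rw [← sq_abs (p'.2 - q.2)]
      exact pow_le_pow_left₀ (abs_nonneg _) (hxA p' hp') 2
    have h5 : 1 / F 0 ^ 2 ≤ ((p'.2 - q.2) - k * (Real.pi / 2)) ^ 2 := by linarith
    have h6 := mul_le_mul_of_nonneg_left h5 (sq_nonneg (F 0))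
    rw [mul_one_div_cancel (by positivity)] at h6
    have h7 := h6.trans (hlow p' k)
    exact (one_le_sq_iff₀ (hD.nn _ _)).mp h7
  have hBk : ∀ k : ℤ, ∀ p' ∈ Box p, ∀ τ, t / 2 ≤ τ → τ ≤ t →
      Mc p K t * ((1 + dd F (gk k q) p' ^ 2) * E2 τ (dd F (gk k q) p' ^ 2)) ≤ B k := by
    intro k p' hp' τ h1 h2
    refine mul_le_mul_of_nonneg_left ((gauss_far ht h1 h2).trans ?_) hMc
    refine mul_le_mul_of_nonneg_left ?_ (by positivity)
    refine le_trans ?_ (exp_le_geo hc0.le (hxA p' hp') k)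
    refine Real.exp_le_exp.mpr ?_
    rw [neg_le_neg_iff, hc, div_mul_eq_mul_div]
    exact div_le_div_of_nonneg_right (hlow p' k) (by positivity)
  -- the numbers
  have hnum : ∀ k : ℤ, ∃ T1 S1 S2 P1 P2 : ℝ, Num F (vy F (gk k q)) t p T1 S1 S2 P1 P2 ∧
      (k ∉ K0 → Tl (vy F (gk k q)) t p T1 S1 S2 P1 P2 (B k)) := by
    intro k
    by_cases hy : p = gk k q
    · have h1 := num_pole hF hK ht p
      rw [← hy]
      refine ⟨_, _, _, _, _, h1, fun hk => ?_⟩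
      have h2 := hbox k hk p ⟨by simp, by simp⟩
      rw [← hy, dd_self] at h2
      linarith
    · exact ⟨_, _, _, _, _, num_away hF hK hRHO ht hy,
        fun hk => tl_away hF hK hRHO ht (hbox k hk) (hBk k)⟩
  choose T1 S1 S2 P1 P2 hN1 hT using hnum
  have hcof : ∀ᶠ k in cofinite, k ∉ K0 := by
    rw [eventually_cofinite]; simpa using K0.finite_toSet
  have sT : Summable T1 := Summable.of_norm_bounded_eventually hBs
    (hcof.mono fun k hk => by rw [Real.norm_eq_abs]; exact (hT k hk).c1)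
  have sS1 : Summable S1 := Summable.of_norm_bounded_eventually hBs
    (hcof.mono fun k hk => by rw [Real.norm_eq_abs]; exact (hT k hk).c2)
  have sS2 : Summable S2 := Summable.of_norm_bounded_eventually hBs
    (hcof.mono fun k hk => by rw [Real.norm_eq_abs]; exact (hT k hk).c3)
  have sP1 : Summable P1 := Summable.of_norm_bounded_eventually hBs
    (hcof.mono fun k hk => by rw [Real.norm_eq_abs]; exact (hT k hk).c4)
  have sP2 : Summable P2 := Summable.of_norm_bounded_eventually hBs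
    (hcof.mono fun k hk => by rw [Real.norm_eq_abs]; exact (hT k hk).c5)
  have hsv : ∀ τ > 0, ∀ p' : X, Summable (fun k : ℤ => vy F (gk k q) τ p') := by
    intro τ hτ p'
    have := (ws_summable hF hD hτ p' q).neg
    refine this.congr fun k => ?_
    unfold vy
    rw [hD.symm]
  have hWS : ∀ (τ : ℝ) (p' : X), -WS F q τ p' = ∑' k : ℤ, vy F (gk k q) τ p' := by
    intro τ p'
    unfold WS vy
    rw [← tsum_neg]
    refine tsum_congr fun k => ?_
    rw [hD.symm]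
  have hB2 : Summable (fun k => 2 * B k) := hBs.mul_left 2
  refine ⟨∑' k, T1 k, ∑' k, S1 k, ∑' k, S2 k, ∑' k, P1 k, ∑' k, P2 k, ?_, ?_, ?_, ?_⟩
  · intro ε hε
    have hsmall : ∀ᶠ h in 𝓝[>] (0 : ℝ), h < t / 2 :=
      nhdsWithin_le_nhds (Iio_mem_nhds (half_pos ht))
    have hposh : ∀ᶠ h in 𝓝[>] (0 : ℝ), 0 < h := self_mem_nhdsWithin
    have key := sum_low (l := 𝓝[>] (0 : ℝ))
      (fun (k : ℤ) h => vy F (gk k q) (t - h) p - vy F (gk k q) t p + T1 k * h)
      (fun h => h) (fun k => 2 * B k) K0 (hposh.mono fun h hh => hh.le)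
      (by
        filter_upwards [hsmall] with h hh
        exact ((hsv (t - h) (by linarith) p).sub (hsv t ht p)).add (sT.mul_right h))
      hB2 (fun k => (hN1 k).a1)
      (by
        filter_upwards [hsmall, hposh] with h hh hh' k hk
        exact (hT k hk).b1 h hh' hh)
      ε hε
    filter_upwards [key, hsmall] with h hh hh'
    rw [((hsv (t - h) (by linarith) p).sub (hsv t ht p)).tsum_add (sT.mul_right h),
      (hsv (t - h) (by linarith) p).tsum_sub (hsv t ht p), tsum_mul_right] at hh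
    show -WS F q t p - (∑' k, T1 k) * h - ε * h ≤ -WS F q (t - h) p
    rw [hWS, hWS]
    linarith
  · intro ε hε
    have hsmall : ∀ᶠ h in 𝓝 (0 : ℝ), |h| < 1 := by
      have := Metric.ball_mem_nhds (0 : ℝ) one_pos
      filter_upwards [this] with h hh
      simpa [Real.dist_eq] using hh
    have key := sum_low (l := 𝓝 (0 : ℝ))
      (fun (k : ℤ) h => vy F (gk k q) t (p.1 + h, p.2) - vy F (gk k q) t p - S1 k * h -
        S2 k * h ^ 2 / 2)
      (fun h => h ^ 2) (fun k => 2 * B k) K0 (Eventually.of_forall fun h => sq_nonneg h)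
      (Eventually.of_forall fun h =>
        (((hsv t ht _).sub (hsv t ht p)).sub (sS1.mul_right h)).sub
          ((sS2.mul_right (h ^ 2)).div_const 2))
      hB2 (fun k => (hN1 k).a2)
      (by
        filter_upwards [hsmall] with h hh k hk
        exact (hT k hk).b2 h hh)
      ε hε
    filter_upwards [key] with h hh
    rw [(((hsv t ht _).sub (hsv t ht p)).sub (sS1.mul_right h)).tsum_sub
          ((sS2.mul_right (h ^ 2)).div_const 2),
      ((hsv t ht _).sub (hsv t ht p)).tsum_sub (sS1.mul_right h),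
      (hsv t ht _).tsum_sub (hsv t ht p), tsum_mul_right, tsum_div_const, tsum_mul_right] at hh
    show -WS F q t p + (∑' k, S1 k) * h + (∑' k, S2 k) * h ^ 2 / 2 - ε * h ^ 2 ≤
      -WS F q t (p.1 + h, p.2)
    rw [hWS, hWS]
    linarith
  · intro ε hε
    have hsmall : ∀ᶠ h in 𝓝 (0 : ℝ), |h| < 1 := by
      have := Metric.ball_mem_nhds (0 : ℝ) one_pos
      filter_upwards [this] with h hh
      simpa [Real.dist_eq] using hh
    have key := sum_low (l := 𝓝 (0 : ℝ))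
      (fun (k : ℤ) h => vy F (gk k q) t (p.1, p.2 + h) - vy F (gk k q) t p - P1 k * h -
        P2 k * h ^ 2 / 2)
      (fun h => h ^ 2) (fun k => 2 * B k) K0 (Eventually.of_forall fun h => sq_nonneg h)
      (Eventually.of_forall fun h =>
        (((hsv t ht _).sub (hsv t ht p)).sub (sP1.mul_right h)).sub
          ((sP2.mul_right (h ^ 2)).div_const 2))
      hB2 (fun k => (hN1 k).a3)
      (by
        filter_upwards [hsmall] with h hh k hk
        exact (hT k hk).b3 h hh)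
      ε hε
    filter_upwards [key] with h hh
    rw [(((hsv t ht _).sub (hsv t ht p)).sub (sP1.mul_right h)).tsum_sub
          ((sP2.mul_right (h ^ 2)).div_const 2),
      ((hsv t ht _).sub (hsv t ht p)).tsum_sub (sP1.mul_right h),
      (hsv t ht _).tsum_sub (hsv t ht p), tsum_mul_right, tsum_div_const, tsum_mul_right] at hh
    show -WS F q t p + (∑' k, P1 k) * h + (∑' k, P2 k) * h ^ 2 / 2 - ε * h ^ 2 ≤
      -WS F q t (p.1, p.2 + h)
    rw [hWS, hWS]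
    linarith
  · have e1 : (∑' k, S2 k) + deriv F p.1 / F p.1 * (∑' k, S1 k) + (∑' k, P2 k) / F p.1 ^ 2 =
        ∑' k, (S2 k + deriv F p.1 / F p.1 * S1 k + P2 k / F p.1 ^ 2) := by
      rw [(sS2.add (sS1.mul_left _)).tsum_add (sP2.div_const _), sS2.tsum_add (sS1.mul_left _),
        tsum_mul_left, tsum_div_const]
    rw [e1]
    exact sT.tsum_le_tsum (fun k => (hN1 k).a4)
      ((sS2.add (sS1.mul_left _)).add (sP2.div_const _))

end Pool.Agent.H21.HK
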